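import Mathlib

open MeasureTheory Set Filter Topology FourierTransform
open scoped SchwartzMap Convolution ContDiff

namespace Pool.Agent.Helper69.PC

lemma norm_fourier_le (h : 𝓢(ℝ, ℂ)) (u : ℝ) : ‖𝓕 h u‖ ≤ ∫ x, ‖h x‖ := by
  rw [SchwartzMap.fourier_coe, Real.fourier_eq]
  refine (norm_integral_le_integral_norm _).trans (le_of_eq ?_)
  simp

lemma fourier_derivCLM (h : 𝓢(ℝ, ℂ)) (u : ℝ) :
    𝓕 (SchwartzMap.derivCLM ℂ ℂ h) u = (2 * Real.pi * Complex.I * u) * 𝓕 h u := by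
  have h1 : (⇑(SchwartzMap.derivCLM ℂ ℂ h) : ℝ → ℂ) = deriv h := by
    ext x; rw [SchwartzMap.derivCLM_apply]
  rw [SchwartzMap.fourier_coe, h1, Real.fourier_deriv h.integrable h.differentiable]
  · rfl
  · rw [← h1]; exact (SchwartzMap.derivCLM ℂ ℂ h).integrable

lemma norm_fourier_le2 (h : 𝓢(ℝ, ℂ)) (u : ℝ) :
    (2 * Real.pi * u) ^ 2 * ‖𝓕 h u‖ ≤
      ∫ x, ‖SchwartzMap.derivCLM ℂ ℂ (SchwartzMap.derivCLM ℂ ℂ h) x‖ := by
  have h1 := norm_fourier_le (SchwartzMap.derivCLM ℂ ℂ (SchwartzMap.derivCLM ℂ ℂ h)) u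
  rw [fourier_derivCLM, fourier_derivCLM] at h1
  refine le_trans (le_of_eq ?_) h1
  simp only [norm_mul, Complex.norm_I, Complex.norm_real, Complex.norm_ofNat, Real.norm_eq_abs,
    abs_of_pos Real.pi_pos, mul_one]
  rw [← sq_abs (2 * Real.pi * u), abs_mul, abs_mul, abs_of_pos Real.pi_pos, abs_two]
  ring

/-- weighted sup norm of the inverse Fourier transform -/
lemma weighted_fourierInv (h : 𝓢(ℝ, ℂ)) (u : ℝ) :
    (1 + u ^ 2) * ‖(𝓕⁻ h : 𝓢(ℝ, ℂ)) u‖ ≤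
      (∫ x, ‖h x‖) + ∫ x, ‖SchwartzMap.derivCLM ℂ ℂ (SchwartzMap.derivCLM ℂ ℂ h) x‖ := by
  have e : (𝓕⁻ h : 𝓢(ℝ, ℂ)) u = 𝓕 h (-u) := by
    rw [SchwartzMap.fourierInv_apply_eq]
    rfl
  rw [e]
  have h1 := norm_fourier_le h (-u)
  have h2 := norm_fourier_le2 h (-u)
  have h3 : u ^ 2 * ‖𝓕 h (-u)‖ ≤ (2 * Real.pi * -u) ^ 2 * ‖𝓕 h (-u)‖ := by
    apply mul_le_mul_of_nonneg_right _ (norm_nonneg _)
    have : (2 * Real.pi * -u) ^ 2 = (2 * Real.pi) ^ 2 * u ^ 2 := by ring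
    rw [this]
    have h4 : 1 ≤ (2 * Real.pi) ^ 2 := by nlinarith [Real.pi_gt_three]
    nlinarith [sq_nonneg u]
  rw [add_mul, one_mul]
  linarith

/-- cutting off a Schwartz function, with control of two derivatives in L¹ -/
lemma cutoff (w : 𝓢(ℝ, ℂ)) {ε : ℝ} (hε : 0 < ε) : ∃ ψ : 𝓢(ℝ, ℂ), HasCompactSupport ψ ∧
    (∫ x, ‖(w - ψ) x‖) + ∫ x, ‖SchwartzMap.derivCLM ℂ ℂ (SchwartzMap.derivCLM ℂ ℂ (w - ψ)) x‖ ≤ ε := by
  set η : ContDiffBump (0:ℝ) := ⟨1, 2, one_pos, one_lt_two⟩ with hη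
  set b0 : ℝ → ℝ := fun x => η x with hb0
  have hb0s : ContDiff ℝ ∞ b0 := η.contDiff
  have hb0c : HasCompactSupport b0 := η.hasCompactSupport
  set b1 : ℝ → ℝ := deriv b0 with hb1
  set b2 : ℝ → ℝ := deriv b1 with hb2
  have hb1s : ContDiff ℝ ∞ b1 := by
    rw [hb1]
    exact (contDiff_infty_iff_deriv.mp hb0s).2
  have hb2s : ContDiff ℝ ∞ b2 := by
    rw [hb2]
    exact (contDiff_infty_iff_deriv.mp hb1s).2
  have hb1c : HasCompactSupport b1 := hb0c.deriv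
  have hb2c : HasCompactSupport b2 := hb1c.deriv
  have hd0 : ∀ x, HasDerivAt b0 (b1 x) x := fun x =>
    (hb0s.differentiable (by simp) x).hasDerivAt
  have hd1 : ∀ x, HasDerivAt b1 (b2 x) x := fun x =>
    (hb1s.differentiable (by simp) x).hasDerivAt
  obtain ⟨C1, hC1⟩ := hb1c.exists_bound_of_continuous hb1s.continuous
  obtain ⟨C2, hC2⟩ := hb2c.exists_bound_of_continuous hb2s.continuous
  have hC10 : 0 ≤ C1 := (norm_nonneg _).trans (hC1 0)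
  have hC20 : 0 ≤ C2 := (norm_nonneg _).trans (hC2 0)
  have hb0le : ∀ x, b0 x ≤ 1 := fun x => η.le_one
  have hb0ge : ∀ x, 0 ≤ b0 x := fun x => η.nonneg
  set w1 := SchwartzMap.derivCLM ℂ ℂ w with hw1
  set w2 := SchwartzMap.derivCLM ℂ ℂ w1 with hw2
  have hw1a : ∀ x, w1 x = deriv w x := fun x => by rw [hw1, SchwartzMap.derivCLM_apply]
  have hw2a : ∀ x, w2 x = deriv w1 x := fun x => by rw [hw2, SchwartzMap.derivCLM_apply]
  have hdw : ∀ x, HasDerivAt w (w1 x) x := fun x => by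
    rw [hw1a]; exact (w.differentiable x).hasDerivAt
  have hdw1 : ∀ x, HasDerivAt w1 (w2 x) x := fun x => by
    rw [hw2a]; exact (w1.differentiable x).hasDerivAt
  -- the candidates
  have hsm : ∀ R : ℝ, ContDiff ℝ ∞ (fun x : ℝ => ((b0 (x / R) : ℝ) : ℂ) * w x) := by
    intro R
    have h1 : ContDiff ℝ ∞ fun x : ℝ => b0 (x / R) := hb0s.comp (contDiff_id.div_const R)
    exact (Complex.ofRealCLM.contDiff.comp h1).mul (w.smooth ⊤)
  have hcs : ∀ R : ℝ, 0 < R → HasCompactSupport (fun x : ℝ => ((b0 (x / R) : ℝ) : ℂ) * w x) := by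
    intro R hR
    apply HasCompactSupport.mul_right
    apply HasCompactSupport.intro (K := Icc (-(2 * R)) (2 * R)) isCompact_Icc
    intro x hx
    have h1 : b0 (x / R) = 0 := by
      apply η.zero_of_le_dist
      rw [dist_zero_right, Real.norm_eq_abs, abs_div, abs_of_pos hR, le_div_iff₀ hR]
      change 2 * R ≤ |x|
      rw [mem_Icc, ← abs_le] at hx
      exact (not_le.mp hx).le
    rw [h1]; simp
  -- tendsto of the three quantities
  have key : ∀ f : 𝓢(ℝ, ℂ), Tendsto (fun R : ℝ => ∫ x, (1 - b0 (x / R)) * ‖f x‖) atTop (𝓝 0) := by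
    intro f
    rw [show (𝓝 (0:ℝ)) = 𝓝 (∫ _ : ℝ, (0:ℝ)) by simp]
    apply tendsto_integral_filter_of_dominated_convergence (fun x => ‖f x‖)
    · filter_upwards with R
      have hc : Continuous fun x : ℝ => b0 (x / R) := hb0s.continuous.comp (continuous_id.div_const R)
      exact ((continuous_const.sub hc).mul f.continuous.norm).aestronglyMeasurable
    · filter_upwards with R
      filter_upwards with x
      rw [Real.norm_of_nonneg (mul_nonneg (by linarith [hb0le (x / R)]) (norm_nonneg _))]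
      exact mul_le_of_le_one_left (norm_nonneg _) (by linarith [hb0ge (x / R)])
    · exact f.integrable.norm
    · filter_upwards with x
      apply tendsto_const_nhds.congr'
      filter_upwards [eventually_ge_atTop |x|, eventually_gt_atTop 0] with R hR hR0
      have h1 : b0 (x / R) = 1 := by
        apply η.one_of_mem_closedBall
        rw [Metric.mem_closedBall, dist_zero_right, Real.norm_eq_abs, abs_div, abs_of_pos hR0,
          div_le_iff₀ hR0]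
        change |x| ≤ 1 * R
        linarith
      rw [h1]; ring
  have key2 : Tendsto (fun R : ℝ => (∫ x, (1 - b0 (x / R)) * ‖w x‖) +
      ((∫ x, (1 - b0 (x / R)) * ‖w2 x‖) + 2 * (C1 * R⁻¹) * (∫ x, ‖w1 x‖) +
        (C2 * (R⁻¹) ^ 2) * ∫ x, ‖w x‖)) atTop (𝓝 0) := by
    have hinv : Tendsto (fun R : ℝ => R⁻¹) atTop (𝓝 0) := tendsto_inv_atTop_zero
    have h1 : Tendsto (fun R : ℝ => 2 * (C1 * R⁻¹) * (∫ x, ‖w1 x‖)) atTop
        (𝓝 (2 * (C1 * 0) * (∫ x, ‖w1 x‖))) :=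
      ((hinv.const_mul C1).const_mul 2).mul_const _
    have h2 : Tendsto (fun R : ℝ => (C2 * (R⁻¹) ^ 2) * ∫ x, ‖w x‖) atTop
        (𝓝 ((C2 * 0 ^ 2) * ∫ x, ‖w x‖)) := ((hinv.pow 2).const_mul C2).mul_const _
    have h3 := (key w).add (((key w2).add h1).add h2)
    simpa using h3
  obtain ⟨R, hR1, hR0⟩ := ((key2.eventually (gt_mem_nhds hε)).and (eventually_gt_atTop 0)).exists
  set ψ : 𝓢(ℝ, ℂ) := (hcs R hR0).toSchwartzMap (hsm R) with hψ
  have hψa : ∀ x, ψ x = ((b0 (x / R) : ℝ) : ℂ) * w x := fun x => rfl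
  refine ⟨ψ, hcs R hR0, ?_⟩
  refine le_trans ?_ hR1.le
  have hha : ∀ x, (w - ψ) x = ((1 - b0 (x / R) : ℝ) : ℂ) * w x := by
    intro x
    rw [sub_apply, hψa]; push_cast; ring
  have hda : ∀ x : ℝ, HasDerivAt (fun x : ℝ => ((1 - b0 (x / R) : ℝ) : ℂ))
      ((-(b1 (x / R) * R⁻¹) : ℝ) : ℂ) x := by
    intro x
    apply HasDerivAt.ofReal_comp
    have h1 : HasDerivAt (fun x : ℝ => x / R) (R⁻¹) x := by
      simpa using (hasDerivAt_id x).div_const R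
    have h2 := (hd0 (x / R)).comp x h1
    simpa using h2.const_sub 1
  have hdb : ∀ x : ℝ, HasDerivAt (fun x : ℝ => ((-(b1 (x / R) * R⁻¹) : ℝ) : ℂ))
      ((-(b2 (x / R) * R⁻¹ * R⁻¹) : ℝ) : ℂ) x := by
    intro x
    apply HasDerivAt.ofReal_comp
    have h1 : HasDerivAt (fun x : ℝ => x / R) (R⁻¹) x := by
      simpa using (hasDerivAt_id x).div_const R
    have h2 := ((hd1 (x / R)).comp x h1).mul_const R⁻¹
    exact h2.fun_neg
  have hd1h : ∀ x, SchwartzMap.derivCLM ℂ ℂ (w - ψ) x =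
      ((-(b1 (x / R) * R⁻¹) : ℝ) : ℂ) * w x + ((1 - b0 (x / R) : ℝ) : ℂ) * w1 x := by
    intro x
    rw [SchwartzMap.derivCLM_apply]
    have h1 : (⇑(w - ψ) : ℝ → ℂ) = fun x => ((1 - b0 (x / R) : ℝ) : ℂ) * w x := funext hha
    rw [h1]
    exact ((hda x).mul (hdw x)).deriv
  have hd2h : ∀ x, SchwartzMap.derivCLM ℂ ℂ (SchwartzMap.derivCLM ℂ ℂ (w - ψ)) x =
      (((-(b2 (x / R) * R⁻¹ * R⁻¹) : ℝ) : ℂ) * w x + ((-(b1 (x / R) * R⁻¹) : ℝ) : ℂ) * w1 x) +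
      (((-(b1 (x / R) * R⁻¹) : ℝ) : ℂ) * w1 x + ((1 - b0 (x / R) : ℝ) : ℂ) * w2 x) := by
    intro x
    rw [SchwartzMap.derivCLM_apply]
    have h1 : (⇑(SchwartzMap.derivCLM ℂ ℂ (w - ψ)) : ℝ → ℂ) = fun x =>
      ((-(b1 (x / R) * R⁻¹) : ℝ) : ℂ) * w x + ((1 - b0 (x / R) : ℝ) : ℂ) * w1 x := funext hd1h
    rw [h1]
    exact (((hdb x).mul (hdw x)).add ((hda x).mul (hdw1 x))).deriv
  have hn1 : ∀ x, ‖(w - ψ) x‖ = (1 - b0 (x / R)) * ‖w x‖ := by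
    intro x
    rw [hha, norm_mul, Complex.norm_real, Real.norm_of_nonneg (by linarith [hb0le (x / R)])]
  have hn2 : ∀ x, ‖SchwartzMap.derivCLM ℂ ℂ (SchwartzMap.derivCLM ℂ ℂ (w - ψ)) x‖ ≤
      (1 - b0 (x / R)) * ‖w2 x‖ + 2 * (C1 * R⁻¹) * ‖w1 x‖ + (C2 * (R⁻¹) ^ 2) * ‖w x‖ := by
    intro x
    rw [hd2h]
    have hRi : 0 < R⁻¹ := inv_pos.mpr hR0
    have t1 : ‖((-(b2 (x / R) * R⁻¹ * R⁻¹) : ℝ) : ℂ) * w x‖ ≤ (C2 * (R⁻¹) ^ 2) * ‖w x‖ := by
      rw [norm_mul, Complex.norm_real, norm_neg, norm_mul, norm_mul, Real.norm_of_nonneg hRi.le]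
      apply mul_le_mul_of_nonneg_right _ (norm_nonneg _)
      rw [mul_assoc, ← sq]
      exact mul_le_mul_of_nonneg_right (hC2 _) (by positivity)
    have t2 : ‖((-(b1 (x / R) * R⁻¹) : ℝ) : ℂ) * w1 x‖ ≤ (C1 * R⁻¹) * ‖w1 x‖ := by
      rw [norm_mul, Complex.norm_real, norm_neg, norm_mul, Real.norm_of_nonneg hRi.le]
      apply mul_le_mul_of_nonneg_right _ (norm_nonneg _)
      exact mul_le_mul_of_nonneg_right (hC1 _) hRi.le
    have t3 : ‖((1 - b0 (x / R) : ℝ) : ℂ) * w2 x‖ = (1 - b0 (x / R)) * ‖w2 x‖ := by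
      rw [norm_mul, Complex.norm_real, Real.norm_of_nonneg (by linarith [hb0le (x / R)])]
    calc _ ≤ ‖((-(b2 (x / R) * R⁻¹ * R⁻¹) : ℝ) : ℂ) * w x + ((-(b1 (x / R) * R⁻¹) : ℝ) : ℂ) * w1 x‖ +
          ‖((-(b1 (x / R) * R⁻¹) : ℝ) : ℂ) * w1 x + ((1 - b0 (x / R) : ℝ) : ℂ) * w2 x‖ :=
            norm_add_le _ _
      _ ≤ _ := by
        have t4 := norm_add_le (((-(b2 (x / R) * R⁻¹ * R⁻¹) : ℝ) : ℂ) * w x)
          (((-(b1 (x / R) * R⁻¹) : ℝ) : ℂ) * w1 x)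
        have t5 := norm_add_le (((-(b1 (x / R) * R⁻¹) : ℝ) : ℂ) * w1 x)
          (((1 - b0 (x / R) : ℝ) : ℂ) * w2 x)
        linarith
  have hcb : Continuous fun x : ℝ => b0 (x / R) := hb0s.continuous.comp (continuous_id.div_const R)
  have hi0 : Integrable fun x => (1 - b0 (x / R)) * ‖w2 x‖ := by
    refine w2.integrable.norm.bdd_mul (c := 1) (continuous_const.sub hcb).aestronglyMeasurable ?_
    filter_upwards with x
    rw [Real.norm_of_nonneg (by linarith [hb0le (x / R)])]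
    linarith [hb0ge (x / R)]
  have hi1 : Integrable fun x => 2 * (C1 * R⁻¹) * ‖w1 x‖ := w1.integrable.norm.const_mul _
  have hi01 : Integrable fun x => (1 - b0 (x / R)) * ‖w2 x‖ + 2 * (C1 * R⁻¹) * ‖w1 x‖ := hi0.add hi1
  have hi2 : Integrable fun x => (C2 * (R⁻¹) ^ 2) * ‖w x‖ := w.integrable.norm.const_mul _
  have hI : ∫ x, ‖SchwartzMap.derivCLM ℂ ℂ (SchwartzMap.derivCLM ℂ ℂ (w - ψ)) x‖ ≤
      (∫ x, (1 - b0 (x / R)) * ‖w2 x‖) + 2 * (C1 * R⁻¹) * (∫ x, ‖w1 x‖) +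
        (C2 * (R⁻¹) ^ 2) * ∫ x, ‖w x‖ := by
    rw [← integral_const_mul, ← integral_const_mul, ← integral_add hi0 hi1,
      ← integral_add hi01 hi2]
    exact integral_mono (SchwartzMap.integrable _).norm (hi01.add hi2) hn2
  have hI1 : ∫ x, ‖(w - ψ) x‖ = ∫ x, (1 - b0 (x / R)) * ‖w x‖ := by
    simp only [hn1]
  rw [hI1]
  linarith

/-- Schwartz functions are approximable in the weighted sup norm by functions with smooth compactly
supported Fourier transform -/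
lemma approx (f : 𝓢(ℝ, ℂ)) {ε : ℝ} (hε : 0 < ε) : ∃ ψ : 𝓢(ℝ, ℂ), HasCompactSupport ψ ∧
    ∀ u, ‖f u - (𝓕⁻ ψ : 𝓢(ℝ, ℂ)) u‖ ≤ ε * (1 + u ^ 2)⁻¹ := by
  obtain ⟨ψ, h1, h2⟩ := cutoff (𝓕 f) hε
  refine ⟨ψ, h1, fun u => ?_⟩
  have h3 := weighted_fourierInv (𝓕 f - ψ) u
  have h4 : (𝓕⁻ (𝓕 f - ψ) : 𝓢(ℝ, ℂ)) = f - 𝓕⁻ ψ := by
    rw [sub_eq_add_neg, FourierTransform.fourierInv_add, FourierTransform.fourierInv_fourier_eq,
      FourierTransform.fourierInv_neg, ← sub_eq_add_neg]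
  rw [h4, sub_apply] at h3
  rw [← div_eq_mul_inv, le_div_iff₀ (by positivity), mul_comm]
  linarith

end Pool.Agent.Helper69.PC
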