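import Pool.Agent.Helper69.PC.L1

open MeasureTheory Set Filter Topology FourierTransform
open scoped SchwartzMap Convolution ContDiff
open Pool.Agent.Helper57.PC Pool.Agent.Helper57.Zeta

namespace Pool.Agent.Helper69.PC

/-- complex pair sums, normalised -/
noncomputable def EC (T : ℝ) (f : ℝ → ℂ) : ℂ :=
  (∑ i ∈ Zf T, ∑ j ∈ Zf T, ((mr i : ℂ) * (mr j : ℂ)) * f (xp T i - xp T j)) / (SN T : ℂ)

/-- the target functional -/
noncomputable def EL (f : ℝ → ℂ) : ℂ := f 0 + ∫ u, (pcDensity u : ℂ) * f u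

variable (k : 𝓢(ℝ, ℝ))

/-- `g ⋆ χ` -/
noncomputable def cv (χ : ℝ → ℂ) (u : ℝ) : ℂ := ∫ v, χ v * (autocorr k (u - v) : ℂ)

lemma integrable_cv {χ : ℝ → ℂ} (hχi : Integrable χ) (u : ℝ) :
    Integrable fun v => χ v * (autocorr k (u - v) : ℂ) := by
  obtain ⟨C, _, hC⟩ := bounded_autocorr k
  refine hχi.mul_bdd (c := C) ?_ ?_
  · exact (Complex.continuous_ofReal.comp ((continuous_autocorr k).comp
      (continuous_const.sub continuous_id))).aestronglyMeasurable
  · filter_upwards with v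
    rw [Complex.norm_real, Real.norm_eq_abs]
    exact hC _

lemma EC_cv {χ : ℝ → ℂ} (hχi : Integrable χ) (T : ℝ) :
    EC T (cv k χ) = ∫ v, χ v * (SS k T v : ℂ) := by
  have h1 : ∀ v, χ v * (SS k T v : ℂ) =
      (∑ i ∈ Zf T, ∑ j ∈ Zf T, ((mr i : ℂ) * (mr j : ℂ)) *
        (χ v * (autocorr k (xp T i - xp T j - v) : ℂ))) / (SN T : ℂ) := by
    intro v
    unfold SS PS
    push_cast
    rw [mul_div_assoc', Finset.mul_sum]
    congr 1
    apply Finset.sum_congr rfl; intro i _
    rw [Finset.mul_sum]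
    apply Finset.sum_congr rfl; intro j _
    ring
  simp only [h1]
  rw [integral_div, integral_finsetSum]
  · unfold EC
    congr 1
    apply Finset.sum_congr rfl; intro i _
    rw [integral_finsetSum]
    · apply Finset.sum_congr rfl; intro j _
      rw [integral_const_mul]
      rfl
    · intro j _
      exact (integrable_cv k hχi _).const_mul _
  · intro i _
    exact integrable_finsetSum _ fun j _ => (integrable_cv k hχi _).const_mul _

lemma EL_cv {χ : ℝ → ℂ} (hχi : Integrable χ) :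
    EL (cv k χ) = ∫ v, χ v * (GG k v : ℂ) := by
  have hgi : Integrable (fun u => (autocorr k u : ℂ)) := (integrable_autocorr k).ofReal
  have h0 := hχi.convolution_integrand (ContinuousLinearMap.mul ℝ ℂ) hgi
  have h1 : Integrable (fun p : ℝ × ℝ => (pcDensity p.1 : ℂ) * (χ p.2 * (autocorr k (p.1 - p.2) : ℂ)))
      (volume.prod volume) := by
    refine Integrable.bdd_mul (c := 1) h0 ?_ ?_
    · have hm : Measurable pcDensity := by
        have : pcDensity = fun u => 1 - Pool.Agent.Helper57.PC.sq u := rfl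
        rw [this]
        exact measurable_const.sub measurable_sq
      exact (Complex.measurable_ofReal.comp (hm.comp measurable_fst)).aestronglyMeasurable
    · filter_upwards with p
      rw [Complex.norm_real, Real.norm_of_nonneg (pcDensity_nonneg _)]
      exact pcDensity_le_one _
  have h2 : ∫ u, (pcDensity u : ℂ) * cv k χ u =
      ∫ v, ∫ u, (pcDensity u : ℂ) * (χ v * (autocorr k (u - v) : ℂ)) := by
    rw [← integral_integral_swap h1]
    apply integral_congr_ae
    filter_upwards with u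
    rw [integral_const_mul]
    rfl
  have h3 : ∀ v, ∫ u, (pcDensity u : ℂ) * (χ v * (autocorr k (u - v) : ℂ)) =
      χ v * ((∫ u, pcDensity u * autocorr k (u - v) : ℝ) : ℂ) := by
    intro v
    rw [← integral_complex_ofReal, ← integral_const_mul]
    apply integral_congr_ae
    filter_upwards with u
    push_cast
    ring
  have h4 : cv k χ 0 = ∫ v, χ v * (autocorr k v : ℂ) := by
    unfold cv
    apply integral_congr_ae
    filter_upwards with v
    rw [zero_sub, autocorr_neg]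
  have h5 : Integrable fun v => χ v * (autocorr k v : ℂ) := by
    have := integrable_cv k hχi 0
    refine this.congr ?_
    filter_upwards with v
    rw [zero_sub, autocorr_neg]
  have h6 : Integrable fun v => χ v * ((∫ u, pcDensity u * autocorr k (u - v) : ℝ) : ℂ) := by
    have h7 : Integrable (fun v => ∫ u, (pcDensity u : ℂ) * (χ v * (autocorr k (u - v) : ℂ))) :=
      h1.integral_prod_right
    refine h7.congr ?_
    filter_upwards with v
    exact h3 v
  unfold EL
  rw [h2, h4]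
  simp only [h3]
  rw [← integral_add h5 h6]
  apply integral_congr_ae
  filter_upwards with v
  unfold GG
  push_cast
  ring

/-- convergence for functions with compactly supported smooth Fourier transform -/
lemma band (hk : ∀ x, 0 ≤ k x) (hk0 : 0 < ∫ x, k x) (hF : ∀ ξ, 𝓕 (kC k) ξ ≠ 0)
    {l : Filter ℝ} [l.IsCountablyGenerated] (hl : l ≤ atTop) (hyp : Hyp k l)
    (ψ : 𝓢(ℝ, ℂ)) (hψ : HasCompactSupport ψ) :
    Tendsto (fun T => EC T ⇑(𝓕⁻ ψ : 𝓢(ℝ, ℂ))) l (𝓝 (EL ⇑(𝓕⁻ ψ : 𝓢(ℝ, ℂ)))) := by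
  have hgF : ∀ ξ, 𝓕 (gC k) ξ ≠ 0 := by
    intro ξ
    rw [fourier_gC]
    exact mul_ne_zero (hF _) (hF _)
  have hQs : ContDiff ℝ ∞ (fun ξ => ψ ξ * (𝓕 (gC k) ξ)⁻¹) := by
    have h1 : ContDiff ℝ ∞ (fun ξ => 𝓕 (gC k) ξ) := (𝓕 (gC k)).smooth ⊤
    exact (ψ.smooth ⊤).mul (h1.inv hgF)
  have hQc : HasCompactSupport (fun ξ => ψ ξ * (𝓕 (gC k) ξ)⁻¹) := hψ.mul_right
  set Q : 𝓢(ℝ, ℂ) := hQc.toSchwartzMap hQs with hQ
  set χ : 𝓢(ℝ, ℂ) := 𝓕⁻ Q with hχ
  have hc : SchwartzMap.convolution (ContinuousLinearMap.mul ℂ ℂ) χ (gC k) = 𝓕⁻ ψ := by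
    have h1 : 𝓕 (SchwartzMap.convolution (ContinuousLinearMap.mul ℂ ℂ) χ (gC k)) = ψ := by
      rw [SchwartzMap.fourier_convolution]
      ext ξ
      rw [SchwartzMap.pairing_apply_apply, hχ, FourierTransform.fourier_fourierInv_eq,
        ContinuousLinearMap.mul_apply', hQ]
      change ψ ξ * (𝓕 (gC k) ξ)⁻¹ * 𝓕 (gC k) ξ = ψ ξ
      rw [mul_assoc, inv_mul_cancel₀ (hgF ξ), mul_one]
    rw [← h1, FourierTransform.fourierInv_fourier_eq]
  have hcv : ⇑(𝓕⁻ ψ : 𝓢(ℝ, ℂ)) = cv k χ := by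
    ext u
    rw [← hc, SchwartzMap.convolution_apply, convolution]
    unfold cv
    apply integral_congr_ae
    filter_upwards with v
    rw [ContinuousLinearMap.mul_apply', gC_apply]
  have hT : ∀ T, EC T ⇑(𝓕⁻ ψ : 𝓢(ℝ, ℂ)) = ∫ v, χ v * (SS k T v : ℂ) := by
    intro T
    rw [hcv]
    exact EC_cv k χ.integrable T
  have hE : EL ⇑(𝓕⁻ ψ : 𝓢(ℝ, ℂ)) = ∫ v, χ v * (GG k v : ℂ) := by
    rw [hcv]
    exact EL_cv k χ.integrable
  rw [hE]
  simp only [hT]
  exact test_conv k hk hk0 hl hyp χ.continuous χ.integrable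
    (fun v => SchwartzMap.norm_le_seminorm ℝ χ v)

end Pool.Agent.Helper69.PC
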