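import Pool.Agent.Helper69.PC.Band
import Pool.Agent.Helper69.PC.Approx

open MeasureTheory Set Filter Topology FourierTransform
open scoped SchwartzMap Convolution ContDiff
open Pool.Agent.Helper57.PC Pool.Agent.Helper57.Zeta

namespace Pool.Agent.Helper69.PC

/-- normalised real pair sums -/
noncomputable def ER (T : ℝ) (f : ℝ → ℝ) : ℝ := PS (Zf T) mr (xp T) f / SN T

lemma EC_ofReal (T : ℝ) (f : ℝ → ℝ) : EC T (fun u => (f u : ℂ)) = (ER T f : ℂ) := by
  unfold EC ER PS
  push_cast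
  rfl

lemma ER_mono {T : ℝ} (hT : 1 < T) {f g : ℝ → ℝ} (h : ∀ u, f u ≤ g u) : ER T f ≤ ER T g := by
  unfold ER PS
  apply div_le_div_of_nonneg_right _ (SN_pos hT).le
  exact Finset.sum_le_sum fun i _ => Finset.sum_le_sum fun j _ =>
    mul_le_mul_of_nonneg_left (h _) (mul_nonneg (mr_nonneg _) (mr_nonneg _))

lemma ER_const_mul (T c : ℝ) (f : ℝ → ℝ) : ER T (fun u => c * f u) = c * ER T f := by
  unfold ER PS
  rw [mul_div_assoc']
  congr 1
  rw [Finset.mul_sum]
  apply Finset.sum_congr rfl; intro i _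
  rw [Finset.mul_sum]
  apply Finset.sum_congr rfl; intro j _
  ring

lemma norm_EC_le {T : ℝ} (hT : 1 < T) {f : ℝ → ℂ} {g : ℝ → ℝ} (h : ∀ u, ‖f u‖ ≤ g u) :
    ‖EC T f‖ ≤ ER T g := by
  have hS := SN_pos hT
  unfold EC ER PS
  rw [norm_div, Complex.norm_real, Real.norm_of_nonneg hS.le]
  apply div_le_div_of_nonneg_right _ hS.le
  refine (norm_sum_le _ _).trans ?_
  apply Finset.sum_le_sum; intro i _
  refine (norm_sum_le _ _).trans ?_
  apply Finset.sum_le_sum; intro j _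
  rw [norm_mul, norm_mul, Complex.norm_real, Complex.norm_real, Real.norm_of_nonneg (mr_nonneg _),
    Real.norm_of_nonneg (mr_nonneg _)]
  exact mul_le_mul_of_nonneg_left (h _) (mul_nonneg (mr_nonneg _) (mr_nonneg _))

lemma EC_sub (T : ℝ) (f g : ℝ → ℂ) : EC T (fun u => f u - g u) = EC T f - EC T g := by
  unfold EC
  rw [← sub_div, ← Finset.sum_sub_distrib]
  congr 1
  apply Finset.sum_congr rfl; intro i _
  rw [← Finset.sum_sub_distrib]
  apply Finset.sum_congr rfl; intro j _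
  ring

variable (k : 𝓢(ℝ, ℝ))

lemma autocorr_zero_pos (hk : ∀ x, 0 ≤ k x) (hk0 : 0 < ∫ x, k x) : 0 < autocorr k 0 := by
  rcases (autocorr_nonneg k hk 0).lt_or_eq with h | h
  · exact h
  · exfalso
    unfold autocorr at h
    simp only [add_zero] at h
    have hi : Integrable fun y => k y * k y := by
      have := integrable_mul_shift k 0 0
      simpa using this
    have h1 := (integral_eq_zero_iff_of_nonneg (fun y => mul_nonneg (hk y) (hk y)) hi).mp h.symm
    have h2 : ∫ x, k x = 0 := by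
      apply integral_eq_zero_of_ae
      filter_upwards [h1] with y hy
      simpa using hy
    linarith

lemma autocorr_lower (hk : ∀ x, 0 ≤ k x) (hk0 : 0 < ∫ x, k x) :
    ∃ c₀ > 0, ∃ r > 0, ∀ x, |x| ≤ r → c₀ ≤ autocorr k x := by
  have h0 := autocorr_zero_pos k hk hk0
  have h1 : ∀ᶠ x in 𝓝 (0:ℝ), autocorr k 0 / 2 < autocorr k x :=
    (continuous_autocorr k).continuousAt.eventually (lt_mem_nhds (by linarith))
  obtain ⟨r, hr, h2⟩ := Metric.eventually_nhds_iff.mp h1
  refine ⟨autocorr k 0 / 2, by linarith, r / 2, by linarith, fun x hx => ?_⟩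
  apply (h2 _).le
  rw [dist_zero_right, Real.norm_eq_abs]
  linarith

/-- the weight is dominated by its smoothing -/
lemma weight_le (hk : ∀ x, 0 ≤ k x) (hk0 : 0 < ∫ x, k x) :
    ∃ C > 0, ∀ u : ℝ, (1 + u ^ 2)⁻¹ ≤ C * ∫ v, (1 + v ^ 2)⁻¹ * autocorr k (u - v) := by
  obtain ⟨c₀, hc₀, r, hr, h1⟩ := autocorr_lower k hk hk0
  refine ⟨(1 + r ^ 2) / (r * c₀), by positivity, fun u => ?_⟩
  obtain ⟨Cg, _, hCg⟩ := bounded_autocorr k
  have hint : Integrable fun v => (1 + v ^ 2)⁻¹ * autocorr k (u - v) := by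
    refine integrable_inv_one_add_sq.mul_bdd (c := Cg) ?_ ?_
    · exact ((continuous_autocorr k).comp (continuous_const.sub continuous_id)).aestronglyMeasurable
    · filter_upwards with v
      rw [Real.norm_eq_abs]; exact hCg _
  have h2 : ∫ v in Ioc (u - r) (u + r), (1 + v ^ 2)⁻¹ * autocorr k (u - v) ≤
      ∫ v, (1 + v ^ 2)⁻¹ * autocorr k (u - v) :=
    setIntegral_le_integral hint (Eventually.of_forall fun v =>
      mul_nonneg (by positivity) (autocorr_nonneg k hk _))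
  rw [← intervalIntegral.integral_of_le (by linarith)] at h2
  have h3 : ∫ _ in (u - r)..(u + r), (2 * (1 + r ^ 2) * (1 + u ^ 2))⁻¹ * c₀ ≤
      ∫ v in (u - r)..(u + r), (1 + v ^ 2)⁻¹ * autocorr k (u - v) := by
    apply intervalIntegral.integral_mono_on (by linarith) intervalIntegrable_const
    · exact hint.intervalIntegrable
    · intro v hv
      have hv1 : |u - v| ≤ r := by rw [abs_le]; constructor <;> linarith [hv.1, hv.2]
      apply mul_le_mul _ (h1 _ hv1) hc₀.le (by positivity)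
      apply inv_anti₀ (by positivity)
      have h4 : (u - v) ^ 2 ≤ r ^ 2 := sq_le_sq' (by linarith [(abs_le.mp hv1).1]) (abs_le.mp hv1).2
      nlinarith [sq_nonneg (2 * u - v), mul_nonneg (sq_nonneg r) (sq_nonneg u), sq_nonneg u]
  rw [intervalIntegral.integral_const, smul_eq_mul] at h3
  have h5 : (1 + r ^ 2) / (r * c₀) * ((u + r - (u - r)) * ((2 * (1 + r ^ 2) * (1 + u ^ 2))⁻¹ * c₀)) =
      (1 + u ^ 2)⁻¹ := by
    field_simp
    ring
  rw [← h5]
  exact mul_le_mul_of_nonneg_left (h3.trans h2) (by positivity)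

/-- uniform bound for the weighted pair sums -/
lemma ER_weight_bdd' (hk : ∀ x, 0 ≤ k x) (hk0 : 0 < ∫ x, k x) {l : Filter ℝ}
    (hl : l ≤ atTop) {M : ℝ} (hM : 0 < M) (hyp : ∀ᶠ T in l, SS k T 0 ≤ M) :
    ∃ C > 0, ∀ᶠ T in l, ER T (fun u => (1 + u ^ 2)⁻¹) ≤ C := by
  obtain ⟨C, hC, hw⟩ := weight_le k hk hk0
  refine ⟨C * (Real.pi * M), by positivity, ?_⟩
  filter_upwards [hyp, hl (eventually_gt_atTop 1)] with T h10 h2
  have h1 : ∀ v, SS k T v ≤ M := fun v => (SS_le k h2 v).trans h10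
  have h3 := ER_mono h2 hw
  rw [ER_const_mul] at h3
  refine h3.trans (mul_le_mul_of_nonneg_left ?_ hC.le)
  -- identity with EC
  have hχi : Integrable (fun v : ℝ => (((1 + v ^ 2)⁻¹ : ℝ) : ℂ)) :=
    integrable_inv_one_add_sq.ofReal
  have h4 := EC_cv k hχi T
  have h5 : cv k (fun v : ℝ => (((1 + v ^ 2)⁻¹ : ℝ) : ℂ)) =
      fun u => ((∫ v, (1 + v ^ 2)⁻¹ * autocorr k (u - v) : ℝ) : ℂ) := by
    ext u
    unfold cv
    rw [← integral_complex_ofReal]
    apply integral_congr_ae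
    filter_upwards with v
    push_cast; ring
  rw [h5, EC_ofReal] at h4
  have h6 : ∫ v : ℝ, (((1 + v ^ 2)⁻¹ : ℝ) : ℂ) * (SS k T v : ℂ) =
      ((∫ v : ℝ, (1 + v ^ 2)⁻¹ * SS k T v : ℝ) : ℂ) := by
    rw [← integral_complex_ofReal]
    apply integral_congr_ae
    filter_upwards with v
    push_cast; ring
  rw [h6] at h4
  have h7 := Complex.ofReal_injective h4
  rw [h7]
  have h8 : ∫ v : ℝ, (1 + v ^ 2)⁻¹ * SS k T v ≤ ∫ v : ℝ, (1 + v ^ 2)⁻¹ * M := by
    apply integral_mono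
    · refine integrable_inv_one_add_sq.mul_bdd (c := M)
        (continuous_SS k T).aestronglyMeasurable ?_
      filter_upwards with v
      rw [Real.norm_of_nonneg (SS_nonneg k hk h2 v)]
      exact h1 v
    · exact integrable_inv_one_add_sq.mul_const _
    · intro v
      exact mul_le_mul_of_nonneg_left (h1 v) (by positivity)
  rw [integral_mul_const, integral_univ_inv_one_add_sq] at h8
  exact h8

lemma ER_weight_bdd (hk : ∀ x, 0 ≤ k x) (hk0 : 0 < ∫ x, k x) {l : Filter ℝ}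
    (hl : l ≤ atTop) (hyp : ∀ᶠ T in l, SS k T 0 ≤ GG k 0 + 1) :
    ∃ C > 0, ∀ᶠ T in l, ER T (fun u => (1 + u ^ 2)⁻¹) ≤ C :=
  ER_weight_bdd' k hk hk0 hl (by have := GG_nonneg k hk 0; linarith) hyp

lemma integrable_pc_mul {f : ℝ → ℂ} (hf : Integrable f) :
    Integrable fun u => (pcDensity u : ℂ) * f u := by
  refine hf.bdd_mul (c := 1) ?_ ?_
  · have hm : Measurable pcDensity := by
      have : pcDensity = fun u => 1 - Pool.Agent.Helper57.PC.sq u := rfl
      rw [this]
      exact measurable_const.sub measurable_sq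
    exact (Complex.measurable_ofReal.comp hm).aestronglyMeasurable
  · filter_upwards with u
    rw [Complex.norm_real, Real.norm_of_nonneg (pcDensity_nonneg _)]
    exact pcDensity_le_one _

/-- convergence for all Schwartz test functions -/
lemma schwartz_conv (hk : ∀ x, 0 ≤ k x) (hk0 : 0 < ∫ x, k x) (hF : ∀ ξ, 𝓕 (kC k) ξ ≠ 0)
    {l : Filter ℝ} [l.IsCountablyGenerated] (hl : l ≤ atTop) (hyp : Hyp k l) (f : 𝓢(ℝ, ℂ)) :
    Tendsto (fun T => EC T f) l (𝓝 (EL f)) := by
  obtain ⟨C, hC, hCb⟩ := ER_weight_bdd k hk hk0 hl (hyp 0 1 one_pos)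
  rw [Metric.tendsto_nhds]
  intro ε hε
  set e : ℝ := ε / (2 * (C + 1 + Real.pi)) with he
  have hpi := Real.pi_pos
  have he0 : 0 < e := by positivity
  obtain ⟨ψ, hψ, hap⟩ := approx f he0
  have hband := band k hk hk0 hF hl hyp ψ hψ
  set φ : 𝓢(ℝ, ℂ) := 𝓕⁻ ψ with hφ
  rw [Metric.tendsto_nhds] at hband
  filter_upwards [hband (ε / 2) (by positivity), hCb, hl (eventually_gt_atTop 1)] with T h1 h2 h3
  have h4 : ‖EC T f - EC T φ‖ ≤ e * C := by
    rw [← EC_sub]
    refine (norm_EC_le h3 hap).trans ?_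
    rw [ER_const_mul]
    exact mul_le_mul_of_nonneg_left h2 he0.le
  have h5 : ‖EL f - EL φ‖ ≤ e * (1 + Real.pi) := by
    have h6 : EL f - EL φ = (f 0 - φ 0) + ∫ u, (pcDensity u : ℂ) * (f u - φ u) := by
      unfold EL
      have : ∀ u, (pcDensity u : ℂ) * (f u - φ u) =
          (pcDensity u : ℂ) * f u - (pcDensity u : ℂ) * φ u := fun u => by ring
      simp only [this]
      rw [integral_sub (integrable_pc_mul f.integrable) (integrable_pc_mul φ.integrable)]
      ring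
    rw [h6]
    refine (norm_add_le _ _).trans ?_
    have h7 := hap 0
    have h8 : ‖∫ u, (pcDensity u : ℂ) * (f u - φ u)‖ ≤ ∫ u, e * (1 + u ^ 2)⁻¹ := by
      apply norm_integral_le_of_norm_le (integrable_inv_one_add_sq.const_mul e)
      filter_upwards with u
      rw [norm_mul, Complex.norm_real, Real.norm_of_nonneg (pcDensity_nonneg _)]
      calc _ ≤ 1 * ‖f u - φ u‖ :=
            mul_le_mul_of_nonneg_right (pcDensity_le_one _) (norm_nonneg _)
        _ ≤ _ := by rw [one_mul]; exact hap u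
    rw [integral_const_mul, integral_univ_inv_one_add_sq] at h8
    have h9 : e * (1 + (0:ℝ) ^ 2)⁻¹ = e := by norm_num
    rw [h9] at h7
    linarith
  have h6 : dist (EC T φ) (EL φ) < ε / 2 := h1
  rw [dist_eq_norm] at h6 ⊢
  have h7 : EC T f - EL f = (EC T f - EC T φ) + (EC T φ - EL φ) - (EL f - EL φ) := by ring
  rw [h7]
  have h8 : e * C + e * (1 + Real.pi) = ε / 2 := by
    rw [he]; field_simp; ring
  calc _ ≤ ‖(EC T f - EC T φ) + (EC T φ - EL φ)‖ + ‖EL f - EL φ‖ := norm_sub_le _ _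
    _ ≤ ‖EC T f - EC T φ‖ + ‖EC T φ - EL φ‖ + ‖EL f - EL φ‖ := by
        have := norm_add_le (EC T f - EC T φ) (EC T φ - EL φ)
        linarith
    _ < ε := by linarith

end Pool.Agent.Helper69.PC
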