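import Pool.Agent.Helper69.PC.Kernel

open MeasureTheory Set Filter Topology
open scoped SchwartzMap

namespace Pool.Agent.Helper69.PC

/-- the double average of `f (s - t)` over the square -/
noncomputable def DI (B : ℝ) (f : ℝ → ℝ) : ℝ :=
  ∫ p : ℝ × ℝ, f (p.1 - p.2) ∂((volume.restrict (Ioc 0 B)).prod (volume.restrict (Ioc 0 B)))

instance finB (B : ℝ) : IsFiniteMeasure (volume.restrict (Ioc (0:ℝ) B)) := by
  constructor
  rw [Measure.restrict_apply_univ]
  exact measure_Ioc_lt_top

lemma DI_integrable (B : ℝ) {f : ℝ → ℝ} (hf : Continuous f) :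
    Integrable (fun p : ℝ × ℝ => f (p.1 - p.2))
      ((volume.restrict (Ioc 0 B)).prod (volume.restrict (Ioc 0 B))) := by
  rw [Measure.prod_restrict]
  have h1 : IsCompact (Icc (0:ℝ) B ×ˢ Icc (0:ℝ) B) := isCompact_Icc.prod isCompact_Icc
  have h2 : ContinuousOn (fun p : ℝ × ℝ => f (p.1 - p.2)) (Icc (0:ℝ) B ×ˢ Icc (0:ℝ) B) :=
    (hf.comp (continuous_fst.sub continuous_snd)).continuousOn
  have h3 := h2.integrableOn_compact (μ := (volume : Measure ℝ).prod volume) h1
  exact h3.mono_set (prod_mono Ioc_subset_Icc_self Ioc_subset_Icc_self)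

lemma DI_sub (B : ℝ) {f g : ℝ → ℝ} (hf : Continuous f) (hg : Continuous g) :
    DI B (fun x => f x - g x) = DI B f - DI B g := by
  unfold DI
  exact integral_sub (DI_integrable B hf) (DI_integrable B hg)

lemma DI_add (B : ℝ) {f g : ℝ → ℝ} (hf : Continuous f) (hg : Continuous g) :
    DI B (fun x => f x + g x) = DI B f + DI B g := by
  unfold DI
  exact integral_add (DI_integrable B hf) (DI_integrable B hg)

lemma DI_const {B : ℝ} (hB : 0 ≤ B) (c : ℝ) : DI B (fun _ => c) = c * B ^ 2 := by
  unfold DI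
  rw [integral_const]
  have : ((volume.restrict (Ioc (0:ℝ) B)).prod (volume.restrict (Ioc (0:ℝ) B))).real univ = B ^ 2 := by
    rw [Measure.real, ← univ_prod_univ, Measure.prod_prod, Measure.restrict_apply_univ,
      Real.volume_Ioc, sub_zero, ENNReal.toReal_mul, ENNReal.toReal_ofReal hB, sq]
  rw [this, smul_eq_mul, mul_comm]

lemma DI_eq {B : ℝ} (hB : 0 ≤ B) {f : ℝ → ℝ} (hf : Continuous f) :
    DI B f = ∫ s in (0:ℝ)..B, ∫ u in (s - B)..s, f u := by
  unfold DI
  rw [integral_prod _ (DI_integrable B hf), intervalIntegral.integral_of_le hB]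
  apply integral_congr_ae
  filter_upwards with s
  rw [← intervalIntegral.integral_of_le hB, intervalIntegral.integral_comp_sub_left (fun u => f u) s,
    sub_zero]

lemma continuous_inner (B : ℝ) {f : ℝ → ℝ} (hf : Continuous f) :
    Continuous fun s => ∫ u in (s - B)..s, f u := by
  have h : (fun s => ∫ u in (s - B)..s, f u) =
      fun s => (∫ u in (0:ℝ)..s, f u) - ∫ u in (0:ℝ)..(s - B), f u := by
    ext s
    rw [intervalIntegral.integral_interval_sub_left (hf.intervalIntegrable _ _)
      (hf.intervalIntegrable _ _)]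
  rw [h]
  have h1 := intervalIntegral.continuous_primitive (μ := volume)
    (fun a b => hf.intervalIntegrable a b) 0
  exact h1.sub (h1.comp (continuous_id.sub continuous_const))

/-- lower bound of the double integral by the central mass -/
lemma DI_ge {B R : ℝ} (hR : 0 ≤ R) (hRB : 2 * R ≤ B) {f : ℝ → ℝ} (hf : Continuous f)
    (hf0 : ∀ x, 0 ≤ f x) : (B - 2 * R) * ∫ u in (-R)..R, f u ≤ DI B f := by
  have hB : 0 ≤ B := by linarith
  rw [DI_eq hB hf]
  have hc := continuous_inner B hf
  have h0 : ∀ a b : ℝ, a ≤ b → 0 ≤ ∫ u in a..b, f u := fun a b hab =>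
    intervalIntegral.integral_nonneg hab fun u _ => hf0 u
  have hI := hf.intervalIntegrable (μ := volume)
  have hci := hc.intervalIntegrable (μ := volume)
  have e1 : ∫ s in (0:ℝ)..B, ∫ u in (s - B)..s, f u =
      (∫ s in (0:ℝ)..R, ∫ u in (s - B)..s, f u) +
      ((∫ s in R..(B - R), ∫ u in (s - B)..s, f u) +
        ∫ s in (B - R)..B, ∫ u in (s - B)..s, f u) := by
    rw [intervalIntegral.integral_add_adjacent_intervals (hci _ _) (hci _ _),
      intervalIntegral.integral_add_adjacent_intervals (hci _ _) (hci _ _)]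
  have h1 : 0 ≤ ∫ s in (0:ℝ)..R, ∫ u in (s - B)..s, f u :=
    intervalIntegral.integral_nonneg hR fun s _ => h0 _ _ (by linarith)
  have h2 : 0 ≤ ∫ s in (B - R)..B, ∫ u in (s - B)..s, f u :=
    intervalIntegral.integral_nonneg (by linarith) fun s _ => h0 _ _ (by linarith)
  have h3 : (B - 2 * R) * ∫ u in (-R)..R, f u ≤ ∫ s in R..(B - R), ∫ u in (s - B)..s, f u := by
    have h4 : ∫ _ in R..(B - R), (∫ u in (-R)..R, f u) = (B - 2 * R) * ∫ u in (-R)..R, f u := by
      rw [intervalIntegral.integral_const, smul_eq_mul]; ring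
    rw [← h4]
    apply intervalIntegral.integral_mono_on (by linarith) intervalIntegrable_const (hci _ _)
    intro s hs
    have h5 : ∫ u in (s - B)..s, f u = (∫ u in (s - B)..(-R), f u) + ((∫ u in (-R)..R, f u) +
        ∫ u in R..s, f u) := by
      rw [intervalIntegral.integral_add_adjacent_intervals (hI _ _) (hI _ _),
        intervalIntegral.integral_add_adjacent_intervals (hI _ _) (hI _ _)]
    rw [h5]
    have h6 := h0 (s - B) (-R) (by linarith [hs.2])
    have h7 := h0 R s hs.1
    linarith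
  linarith

/-- upper bound of the double integral -/
lemma DI_le {B : ℝ} (hB : 0 ≤ B) {f : ℝ → ℝ} (hf : Continuous f)
    (hf0 : ∀ x, 0 ≤ f x) : DI B f ≤ B * ∫ u in (-B)..B, f u := by
  rw [DI_eq hB hf]
  have hc := continuous_inner B hf
  have h0 : ∀ a b : ℝ, a ≤ b → 0 ≤ ∫ u in a..b, f u := fun a b hab =>
    intervalIntegral.integral_nonneg hab fun u _ => hf0 u
  have hI := hf.intervalIntegrable (μ := volume)
  have hci := hc.intervalIntegrable (μ := volume)
  have h4 : ∫ _ in (0:ℝ)..B, (∫ u in (-B)..B, f u) = B * ∫ u in (-B)..B, f u := by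
    rw [intervalIntegral.integral_const, smul_eq_mul]; ring
  rw [← h4]
  apply intervalIntegral.integral_mono_on hB (hci _ _) intervalIntegrable_const
  intro s hs
  have h5 : ∫ u in (-B)..B, f u = (∫ u in (-B)..(s - B), f u) + ((∫ u in (s - B)..s, f u) +
      ∫ u in s..B, f u) := by
    rw [intervalIntegral.integral_add_adjacent_intervals (hI _ _) (hI _ _),
      intervalIntegral.integral_add_adjacent_intervals (hI _ _) (hI _ _)]
  rw [h5]
  have h6 := h0 (-B) (s - B) (by linarith [hs.1])
  have h7 := h0 s B hs.2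
  linarith

lemma DI_le_integral {B : ℝ} (hB : 0 ≤ B) {f : ℝ → ℝ} (hf : Continuous f)
    (hf0 : ∀ x, 0 ≤ f x) (hfi : Integrable f) : DI B f ≤ B * ∫ u, f u := by
  refine (DI_le hB hf hf0).trans (mul_le_mul_of_nonneg_left ?_ hB)
  rw [intervalIntegral.integral_of_le (by linarith)]
  exact setIntegral_le_integral hfi (Eventually.of_forall hf0)

end Pool.Agent.Helper69.PC
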