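import Pool.Agent.Helper69.PC.Sandwich

open MeasureTheory Set Filter Topology FourierTransform
open scoped SchwartzMap Convolution ContDiff
open Pool.Agent.Helper57.PC Pool.Agent.Helper57.Zeta

namespace Pool.Agent.Helper69.PC

variable (k : 𝓢(ℝ, ℝ))

/-- decay of the derivative of the autocorrelation -/
lemma deriv_gC_bound : ∃ C : ℝ, 0 ≤ C ∧ ∀ x, ‖deriv (gC k) x‖ ≤ C * (1 + x ^ 2)⁻¹ := by
  set w := SchwartzMap.derivCLM ℂ ℂ (gC k) with hw
  have hwa : ∀ x, w x = deriv (gC k) x := fun x => by rw [hw, SchwartzMap.derivCLM_apply]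
  refine ⟨SchwartzMap.seminorm ℝ 0 0 w + SchwartzMap.seminorm ℝ 2 0 w,
    add_nonneg (apply_nonneg _ _) (apply_nonneg _ _), fun x => ?_⟩
  rw [← hwa, ← div_eq_mul_inv, le_div_iff₀ (by positivity)]
  have h1 := SchwartzMap.norm_le_seminorm ℝ w x
  have h2 := SchwartzMap.norm_pow_mul_le_seminorm ℝ w 2 x
  rw [Real.norm_eq_abs, sq_abs] at h2
  nlinarith

/-- Lipschitz bound for the translates, with weight -/
lemma autocorr_lip (V : ℝ) : ∃ C : ℝ, 0 ≤ C ∧ ∀ u v v' : ℝ, |v| ≤ V → |v'| ≤ V →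
    |autocorr k (u - v) - autocorr k (u - v')| ≤ (C * |v - v'|) * (1 + u ^ 2)⁻¹ := by
  obtain ⟨C, hC, hb⟩ := deriv_gC_bound k
  refine ⟨C * (2 * (1 + V ^ 2)), by positivity, fun u v v' hv hv' => ?_⟩
  have h1 : ∀ x ∈ Icc (u - V) (u + V), ‖deriv (gC k) x‖ ≤ C * (2 * (1 + V ^ 2)) * (1 + u ^ 2)⁻¹ := by
    intro x hx
    refine (hb x).trans ?_
    rw [mul_assoc]
    apply mul_le_mul_of_nonneg_left _ hC
    rw [← div_eq_mul_inv, inv_eq_one_div, div_le_div_iff₀ (by positivity) (by positivity)]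
    have h2 : (u - x) ^ 2 ≤ V ^ 2 := sq_le_sq' (by linarith [hx.2]) (by linarith [hx.1])
    nlinarith [sq_nonneg (u - 2 * x), mul_nonneg (sq_nonneg V) (sq_nonneg x), sq_nonneg x]
  have hv1 := abs_le.mp hv
  have hv2 := abs_le.mp hv'
  have h3 := (convex_Icc (u - V) (u + V)).norm_image_sub_le_of_norm_deriv_le (f := gC k)
    (fun x _ => (gC k).differentiable x) h1
    (x := u - v') (y := u - v) ⟨by linarith [hv2.2], by linarith [hv2.1]⟩
    ⟨by linarith [hv1.2], by linarith [hv1.1]⟩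
  rw [gC_apply, gC_apply, ← Complex.ofReal_sub, Complex.norm_real, Real.norm_eq_abs,
    Real.norm_eq_abs] at h3
  have h4 : |u - v - (u - v')| = |v - v'| := by
    rw [show u - v - (u - v') = -(v - v') by ring, abs_neg]
  rw [h4] at h3
  linarith

/-- it suffices to have the one-sided hypothesis on a dense set containing 0 -/
lemma hyp_of_dense (hk : ∀ x, 0 ≤ k x) (hk0 : 0 < ∫ x, k x) {l : Filter ℝ}
    (hl : l ≤ atTop) {D : Set ℝ} (hD : Dense D) (hD0 : (0:ℝ) ∈ D)
    (h : ∀ v ∈ D, ∀ δ > 0, ∀ᶠ T in l, SS k T v ≤ GG k v + δ) : Hyp k l := by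
  intro v δ hδ
  obtain ⟨C, hC, hCb⟩ := ER_weight_bdd k hk hk0 hl (h 0 hD0 1 one_pos)
  obtain ⟨C', hC', hlip⟩ := autocorr_lip k (|v| + 1)
  have h1 : ∀ᶠ v' in 𝓝 v, GG k v' < GG k v + δ / 3 :=
    (continuous_GG k).continuousAt.eventually (gt_mem_nhds (by linarith))
  have h2 : ∀ᶠ v' in 𝓝 v, |v - v'| < min 1 (δ / (3 * (C' * C + 1))) := by
    have := Metric.ball_mem_nhds v (ε := min 1 (δ / (3 * (C' * C + 1)))) (by positivity)
    filter_upwards [this] with v' hv'
    rw [Metric.mem_ball, dist_comm, Real.dist_eq] at hv'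
    exact hv'
  obtain ⟨v', ⟨h3, h4⟩, hv'D⟩ := mem_closure_iff_nhds.mp (hD v) _ (h1.and h2)
  have h5 : |v - v'| < 1 := lt_of_lt_of_le h4 (min_le_left _ _)
  have h6 : |v - v'| < δ / (3 * (C' * C + 1)) := lt_of_lt_of_le h4 (min_le_right _ _)
  filter_upwards [hCb, h v' hv'D (δ / 3) (by positivity), hl (eventually_gt_atTop 1)] with T h7 h8 h9
  have hV1 : |v| ≤ |v| + 1 := by linarith
  have hV2 : |v'| ≤ |v| + 1 := by
    have : |v'| ≤ |v| + |v' - v| := by
      have := abs_add_le v (v' - v)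
      simpa using this
    rw [abs_sub_comm] at this
    linarith
  have h10 : SS k T v ≤ SS k T v' + C' * |v - v'| * ER T (fun u => (1 + u ^ 2)⁻¹) := by
    have h11 : SS k T v ≤ ER T (fun u => autocorr k (u - v') + (C' * |v - v'|) * (1 + u ^ 2)⁻¹) := by
      apply ER_mono h9
      intro u
      have := (abs_le.mp (hlip u v v' hV1 hV2)).2
      linarith
    have h12 : ER T (fun u => autocorr k (u - v') + (C' * |v - v'|) * (1 + u ^ 2)⁻¹) =
        SS k T v' + ER T (fun u => (C' * |v - v'|) * (1 + u ^ 2)⁻¹) := by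
      unfold ER SS PS
      rw [← add_div, ← Finset.sum_add_distrib]
      congr 1
      apply Finset.sum_congr rfl; intro i _
      rw [← Finset.sum_add_distrib]
      apply Finset.sum_congr rfl; intro j _
      ring
    rw [h12, ER_const_mul] at h11
    exact h11
  have h13 : C' * |v - v'| * ER T (fun u => (1 + u ^ 2)⁻¹) ≤ C' * |v - v'| * C :=
    mul_le_mul_of_nonneg_left h7 (by positivity)
  have h14 : C' * |v - v'| * C ≤ δ / 3 := by
    rw [lt_div_iff₀ (by positivity)] at h6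
    have : C' * |v - v'| * C = |v - v'| * (C' * C) := by ring
    rw [this]
    have h15 : 0 ≤ |v - v'| := abs_nonneg _
    nlinarith
  linarith

end Pool.Agent.Helper69.PC
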