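import Mathlib

open MeasureTheory Set FourierTransform
open scoped SchwartzMap Convolution Real

namespace Pool.Agent.Helper69.PC

/-- the autocorrelation of a real Schwartz function -/
noncomputable def autocorr (k : 𝓢(ℝ, ℝ)) (x : ℝ) : ℝ := ∫ y, k y * k (y + x)

/-- `k` as a complex Schwartz function -/
noncomputable def kC (k : 𝓢(ℝ, ℝ)) : 𝓢(ℝ, ℂ) := k.postcompCLM Complex.ofRealCLM

lemma kC_apply (k : 𝓢(ℝ, ℝ)) (x : ℝ) : kC k x = (k x : ℂ) := by
  unfold kC
  rw [SchwartzMap.postcompCLM_apply]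
  rfl

/-- the reflection of `k` as a complex Schwartz function -/
noncomputable def kR (k : 𝓢(ℝ, ℝ)) : 𝓢(ℝ, ℂ) :=
  SchwartzMap.compCLMOfContinuousLinearEquiv ℂ (LinearIsometryEquiv.neg ℝ (E := ℝ)) (kC k)

lemma kR_apply (k : 𝓢(ℝ, ℝ)) (x : ℝ) : kR k x = (k (-x) : ℂ) := by
  unfold kR
  simp [kC_apply]

lemma fourier_kR (k : 𝓢(ℝ, ℝ)) (ξ : ℝ) : 𝓕 (kR k) ξ = 𝓕 (kC k) (-ξ) := by
  rw [SchwartzMap.fourier_coe, SchwartzMap.fourier_coe, Real.fourier_eq, Real.fourier_eq]
  rw [← integral_neg_eq_self]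
  simp [kR_apply, kC_apply]

/-- the autocorrelation as complex Schwartz function -/
noncomputable def gC (k : 𝓢(ℝ, ℝ)) : 𝓢(ℝ, ℂ) :=
  SchwartzMap.convolution (ContinuousLinearMap.mul ℂ ℂ) (kR k) (kC k)

lemma gC_apply (k : 𝓢(ℝ, ℝ)) (x : ℝ) : gC k x = (autocorr k x : ℂ) := by
  unfold gC autocorr
  rw [SchwartzMap.convolution_apply, convolution]
  simp only [kR_apply, kC_apply, ContinuousLinearMap.mul_apply']
  rw [← integral_neg_eq_self, ← integral_complex_ofReal]
  apply integral_congr_ae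
  filter_upwards with y
  simp only [neg_neg, sub_neg_eq_add]
  norm_num [add_comm]

lemma fourier_gC (k : 𝓢(ℝ, ℝ)) (ξ : ℝ) :
    𝓕 (gC k) ξ = 𝓕 (kC k) (-ξ) * 𝓕 (kC k) ξ := by
  unfold gC
  rw [SchwartzMap.fourier_convolution]
  rw [SchwartzMap.pairing_apply_apply, fourier_kR]
  rfl

lemma autocorr_nonneg (k : 𝓢(ℝ, ℝ)) (hk : ∀ x, 0 ≤ k x) (x : ℝ) : 0 ≤ autocorr k x :=
  integral_nonneg fun _ => mul_nonneg (hk _) (hk _)

lemma autocorr_neg (k : 𝓢(ℝ, ℝ)) (x : ℝ) : autocorr k (-x) = autocorr k x := by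
  unfold autocorr
  rw [← integral_add_right_eq_self _ x]
  apply integral_congr_ae
  filter_upwards with y
  rw [add_neg_cancel_right, mul_comm]

lemma continuous_autocorr (k : 𝓢(ℝ, ℝ)) : Continuous (autocorr k) := by
  have h : autocorr k = fun x => (gC k x).re := by
    ext x; rw [gC_apply]; simp
  rw [h]
  exact Complex.continuous_re.comp (gC k).continuous

lemma integrable_autocorr (k : 𝓢(ℝ, ℝ)) : Integrable (autocorr k) := by
  have h : autocorr k = fun x => (gC k x).re := by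
    ext x; rw [gC_apply]; simp
  rw [h]
  exact (gC k).integrable.re

lemma bounded_autocorr (k : 𝓢(ℝ, ℝ)) : ∃ C : ℝ, 0 ≤ C ∧ ∀ x, |autocorr k x| ≤ C := by
  refine ⟨SchwartzMap.seminorm ℝ 0 0 (gC k), apply_nonneg _ _, fun x => ?_⟩
  have := SchwartzMap.norm_le_seminorm ℝ (gC k) x
  rw [gC_apply, Complex.norm_real, Real.norm_eq_abs] at this
  exact this

lemma integral_autocorr (k : 𝓢(ℝ, ℝ)) : ∫ x, autocorr k x = (∫ x, k x) ^ 2 := by
  have h0 : (((∫ x, autocorr k x : ℝ)) : ℂ) = 𝓕 (gC k) 0 := by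
    rw [SchwartzMap.fourier_coe, Real.fourier_eq, ← integral_complex_ofReal]
    simp [gC_apply]
  have h1 : (((∫ x, k x : ℝ)) : ℂ) = 𝓕 (kC k) 0 := by
    rw [SchwartzMap.fourier_coe, Real.fourier_eq, ← integral_complex_ofReal]
    simp [kC_apply]
  have h2 := fourier_gC k 0
  rw [neg_zero, ← h0, ← h1] at h2
  rw [sq]
  exact_mod_cast h2

/-- the correlation identity -/
lemma integral_shift (k : 𝓢(ℝ, ℝ)) (a b : ℝ) :
    ∫ z, k (z - a) * k (z - b) = autocorr k (a - b) := by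
  unfold autocorr
  rw [← integral_add_right_eq_self _ a]
  apply integral_congr_ae
  filter_upwards with y
  rw [add_sub_cancel_right, add_sub_assoc]

lemma integrable_mul_shift (k : 𝓢(ℝ, ℝ)) (a b : ℝ) :
    Integrable fun z => k (z - a) * k (z - b) := by
  have h1 : Integrable fun z => k (z - a) := k.integrable.comp_sub_right a
  refine h1.mul_bdd (c := SchwartzMap.seminorm ℝ 0 0 k) ?_ ?_
  · exact (k.continuous.comp (continuous_id.sub continuous_const)).aestronglyMeasurable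
  · filter_upwards with z
    exact SchwartzMap.norm_le_seminorm ℝ k _

end Pool.Agent.Helper69.PC
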