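import Pool.Agent.Helper69.PC.Target

open MeasureTheory Set Filter Topology
open scoped SchwartzMap Convolution
open Pool.Agent.Helper57.PC Pool.Agent.Helper57.Zeta

namespace Pool.Agent.Helper69.PC

variable (k : 𝓢(ℝ, ℝ))

/-- the one-sided hypothesis -/
def Hyp (l : Filter ℝ) : Prop :=
  ∀ v : ℝ, ∀ δ > 0, ∀ᶠ T in l, SS k T v ≤ GG k v + δ

lemma SS_bdd0 {l : Filter ℝ} (hl : l ≤ atTop) (hyp : ∀ᶠ T in l, SS k T 0 ≤ GG k 0 + 1) :
    ∀ᶠ T in l, ∀ v, SS k T v ≤ GG k 0 + 1 := by
  filter_upwards [hyp, hl (eventually_gt_atTop 1)] with T h1 h2 v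
  exact (SS_le k h2 v).trans h1

lemma SS_bdd {l : Filter ℝ} (hl : l ≤ atTop) (hyp : Hyp k l) :
    ∀ᶠ T in l, ∀ v, SS k T v ≤ GG k 0 + 1 := SS_bdd0 k hl (hyp 0 1 one_pos)

lemma Dminus (hk : ∀ x, 0 ≤ k x) {l : Filter ℝ} [l.IsCountablyGenerated] (hl : l ≤ atTop)
    (hyp : Hyp k l) (R : ℝ) :
    Tendsto (fun T => ∫ v in (-R)..R, max 0 (SS k T v - GG k v)) l (𝓝 0) := by
  rw [show (𝓝 (0:ℝ)) = 𝓝 (∫ _ in (-R)..R, (0:ℝ)) by simp]
  apply intervalIntegral.tendsto_integral_filter_of_dominated_convergence (fun _ => GG k 0 + 1)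
  · filter_upwards with T
    exact (continuous_const.max ((continuous_SS k T).sub (continuous_GG k))).aestronglyMeasurable
  · filter_upwards [SS_bdd k hl hyp] with T hT
    filter_upwards with v _
    rw [Real.norm_of_nonneg (le_max_left _ _)]
    apply max_le
    · have := GG_nonneg k hk 0; linarith
    · have := GG_nonneg k hk v
      linarith [hT v]
  · exact intervalIntegrable_const
  · filter_upwards with v _
    rw [Metric.tendsto_nhds]
    intro ε hε
    filter_upwards [hyp v (ε / 2) (by positivity)] with T hT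
    rw [dist_zero_right, Real.norm_of_nonneg (le_max_left _ _)]
    apply max_lt hε
    linarith

/-- L¹ convergence on compact sets -/
lemma L1conv (hk : ∀ x, 0 ≤ k x) (hk0 : 0 < ∫ x, k x) {l : Filter ℝ} [l.IsCountablyGenerated]
    (hl : l ≤ atTop) (hyp : Hyp k l) {R η : ℝ} (hR : 0 ≤ R) (hη : 0 < η) :
    ∀ᶠ T in l, ∫ v in (-R)..R, |SS k T v - GG k v| ≤ η := by
  set κ := ∫ x, k x with hκ
  set ε := η / 8 with hε
  have hε0 : 0 < ε := by positivity
  obtain ⟨B₀, hB₀⟩ := DI_GG_le k hk hε0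
  set B := max B₀ (max (4 * R) 1) with hB
  have hB1 : B₀ ≤ B := le_max_left _ _
  have hB2 : 4 * R ≤ B := (le_max_left _ _).trans (le_max_right _ _)
  have hB3 : 1 ≤ B := (le_max_right _ _).trans (le_max_right _ _)
  have hBpos : 0 < B := by linarith
  have hE := hB₀ B hB1
  set ε₂ := ε / (B * κ ^ 2) with hε₂
  have hε₂0 : 0 < ε₂ := by positivity
  filter_upwards [hl (DI_SS_ge k hk hk0 hBpos hε₂0),
    (Dminus k hk hl hyp B).eventually (gt_mem_nhds hε0),
    (Dminus k hk hl hyp R).eventually (gt_mem_nhds hε0)] with T h1 h2 h3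
  have hcS := continuous_SS k T
  have hcG := continuous_GG k
  set P : ℝ → ℝ := fun v => max 0 (GG k v - SS k T v) with hP
  set D : ℝ → ℝ := fun v => max 0 (SS k T v - GG k v) with hD
  have hcP : Continuous P := continuous_const.max (hcG.sub hcS)
  have hcD : Continuous D := continuous_const.max (hcS.sub hcG)
  have hPD : ∀ v, P v - D v = GG k v - SS k T v := by
    intro v
    simp only [hP, hD]
    rcases le_total (GG k v - SS k T v) 0 with h | h
    · rw [max_eq_left h, max_eq_right (by linarith)]; ring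
    · rw [max_eq_right h, max_eq_left (by linarith)]; ring
  have habs : ∀ v, |SS k T v - GG k v| = P v + D v := by
    intro v
    simp only [hP, hD]
    rcases le_total (GG k v - SS k T v) 0 with h | h
    · rw [max_eq_left h, max_eq_right (by linarith), abs_of_nonneg (by linarith)]; ring
    · rw [max_eq_right h, max_eq_left (by linarith), abs_of_nonpos (by linarith)]; ring
  have e1 : DI B P - DI B D = DI B (GG k) - DI B (SS k T) := by
    rw [← DI_sub B hcP hcD, ← DI_sub B hcG hcS]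
    congr 1
    ext v; exact hPD v
  have h4 : DI B D ≤ B * ε := by
    refine (DI_le hBpos.le hcD (fun v => le_max_left _ _)).trans ?_
    exact mul_le_mul_of_nonneg_left h2.le hBpos.le
  have h5 : (B - 2 * R) * ∫ u in (-R)..R, P u ≤ DI B P :=
    DI_ge hR (by linarith) hcP (fun v => le_max_left _ _)
  have h6 : ε₂ * (B ^ 2 * κ ^ 2) = ε * B := by
    rw [hε₂]; field_simp
  have h7 : DI B P ≤ 3 * (ε * B) := by
    have h8 : (1 - ε₂) * (B ^ 2 * κ ^ 2) = B ^ 2 * κ ^ 2 - ε * B := by rw [← h6]; ring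
    rw [h8] at h1
    linarith
  have hP0 : 0 ≤ ∫ u in (-R)..R, P u :=
    intervalIntegral.integral_nonneg (by linarith) fun u _ => le_max_left _ _
  have h9 : (B / 2) * ∫ u in (-R)..R, P u ≤ (B / 2) * (6 * ε) := by
    have h10 : (B / 2) * ∫ u in (-R)..R, P u ≤ (B - 2 * R) * ∫ u in (-R)..R, P u :=
      mul_le_mul_of_nonneg_right (by linarith) hP0
    linarith
  have h11 : ∫ u in (-R)..R, P u ≤ 6 * ε := le_of_mul_le_mul_left h9 (by positivity)
  have h12 : ∫ v in (-R)..R, |SS k T v - GG k v| =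
      (∫ u in (-R)..R, P u) + ∫ u in (-R)..R, D u := by
    rw [← intervalIntegral.integral_add (hcP.intervalIntegrable _ _) (hcD.intervalIntegrable _ _)]
    apply intervalIntegral.integral_congr
    intro v _
    exact habs v
  rw [h12]
  have h13 : ∫ u in (-R)..R, D u < ε := h3
  linarith

/-- testing against bounded integrable functions -/
lemma test_conv (hk : ∀ x, 0 ≤ k x) (hk0 : 0 < ∫ x, k x) {l : Filter ℝ} [l.IsCountablyGenerated]
    (hl : l ≤ atTop) (hyp : Hyp k l) {χ : ℝ → ℂ} (hχc : Continuous χ) (hχi : Integrable χ)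
    {C : ℝ} (hC : ∀ v, ‖χ v‖ ≤ C) :
    Tendsto (fun T => ∫ v, χ v * (SS k T v : ℂ)) l (𝓝 (∫ v, χ v * (GG k v : ℂ))) := by
  rw [Metric.tendsto_nhds]
  intro ε hε
  have hC0 : 0 ≤ C := (norm_nonneg _).trans (hC 0)
  -- GG is bounded
  obtain ⟨Cg, hCg0, hCg⟩ := bounded_autocorr k
  have hGb : ∀ v, GG k v ≤ Cg + (∫ x, k x) ^ 2 := by
    intro v
    rw [GG_eq]
    have h1 := HH_nonneg k hk v
    have h2 := (abs_le.mp (hCg v)).2
    linarith
  set C₁ := (GG k 0 + 1) + (Cg + (∫ x, k x) ^ 2) with hC₁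
  have hG00 := GG_nonneg k hk 0
  have hC₁0 : 0 < C₁ := by positivity
  -- tails of χ
  have hlim : Tendsto (fun M : ℝ => ∫ v in (-M)..M, ‖χ v‖) atTop (𝓝 (∫ v, ‖χ v‖)) :=
    intervalIntegral_tendsto_integral hχi.norm tendsto_neg_atTop_atBot tendsto_id
  have hev : ∀ᶠ M : ℝ in atTop, (∫ v, ‖χ v‖) - ε / (4 * C₁) < ∫ v in (-M)..M, ‖χ v‖ :=
    hlim.eventually (lt_mem_nhds (by
      have : 0 < ε / (4 * C₁) := by positivity
      linarith))
  obtain ⟨R, hR1, hR0⟩ := (hev.and (eventually_ge_atTop 0)).exists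
  filter_upwards [SS_bdd k hl hyp, hl (eventually_gt_atTop 1),
    L1conv k hk hk0 hl hyp hR0 (η := ε / (4 * (C + 1))) (by positivity)] with T h1 h2 h3
  have hcS := continuous_SS k T
  have hcG := continuous_GG k
  have hSi : Integrable fun v => χ v * (SS k T v : ℂ) := by
    refine hχi.mul_bdd (c := GG k 0 + 1)
      (Complex.continuous_ofReal.comp hcS).aestronglyMeasurable ?_
    filter_upwards with v
    rw [Complex.norm_real, Real.norm_of_nonneg (SS_nonneg k hk h2 v)]
    exact h1 v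
  have hGi : Integrable fun v => χ v * (GG k v : ℂ) := by
    refine hχi.mul_bdd (c := Cg + (∫ x, k x) ^ 2)
      (Complex.continuous_ofReal.comp hcG).aestronglyMeasurable ?_
    filter_upwards with v
    rw [Complex.norm_real, Real.norm_of_nonneg (GG_nonneg k hk v)]
    exact hGb v
  rw [dist_eq_norm, ← integral_sub hSi hGi]
  have h4 : ‖∫ v, (χ v * (SS k T v : ℂ) - χ v * (GG k v : ℂ))‖ ≤
      ∫ v, ‖χ v‖ * |SS k T v - GG k v| := by
    refine (norm_integral_le_integral_norm _).trans (le_of_eq ?_)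
    apply integral_congr_ae
    filter_upwards with v
    rw [← mul_sub, norm_mul, ← Complex.ofReal_sub, Complex.norm_real, Real.norm_eq_abs]
  have hbd : ∀ v, |SS k T v - GG k v| ≤ C₁ := by
    intro v
    rw [abs_le]
    have := h1 v
    have := hGb v
    have := SS_nonneg k hk h2 v
    have := GG_nonneg k hk v
    constructor <;> linarith
  have hii : Integrable fun v => ‖χ v‖ * |SS k T v - GG k v| := by
    refine hχi.norm.mul_bdd (c := C₁) (hcS.sub hcG).abs.aestronglyMeasurable ?_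
    filter_upwards with v
    rw [Real.norm_of_nonneg (abs_nonneg _)]
    exact hbd v
  -- split
  have h5 : ∫ v, ‖χ v‖ * |SS k T v - GG k v| =
      (∫ v in Ioc (-R) R, ‖χ v‖ * |SS k T v - GG k v|) +
      ∫ v in (Ioc (-R) R)ᶜ, ‖χ v‖ * |SS k T v - GG k v| :=
    (integral_add_compl measurableSet_Ioc hii).symm
  have h6 : ∫ v in Ioc (-R) R, ‖χ v‖ * |SS k T v - GG k v| ≤ C * (ε / (4 * (C + 1))) := by
    rw [← intervalIntegral.integral_of_le (by linarith)]
    refine le_trans ?_ (mul_le_mul_of_nonneg_left h3 hC0)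
    rw [← intervalIntegral.integral_const_mul]
    apply intervalIntegral.integral_mono_on (by linarith)
    · apply Continuous.intervalIntegrable
      exact hχc.norm.mul (hcS.sub hcG).abs
    · apply Continuous.intervalIntegrable
      exact continuous_const.mul (hcS.sub hcG).abs
    · intro v _
      exact mul_le_mul_of_nonneg_right (hC v) (abs_nonneg _)
  have h7 : ∫ v in (Ioc (-R) R)ᶜ, ‖χ v‖ * |SS k T v - GG k v| ≤ C₁ * (ε / (4 * C₁)) := by
    have h8 : ∫ v in (Ioc (-R) R)ᶜ, ‖χ v‖ * |SS k T v - GG k v| ≤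
        ∫ v in (Ioc (-R) R)ᶜ, C₁ * ‖χ v‖ := by
      apply setIntegral_mono hii.integrableOn (hχi.norm.const_mul _).integrableOn
      intro v
      simp only
      rw [mul_comm C₁]
      exact mul_le_mul_of_nonneg_left (hbd v) (norm_nonneg _)
    rw [integral_const_mul] at h8
    refine h8.trans (mul_le_mul_of_nonneg_left ?_ hC₁0.le)
    have h9 := integral_add_compl (s := Ioc (-R) R) measurableSet_Ioc hχi.norm
    rw [← intervalIntegral.integral_of_le (by linarith)] at h9
    linarith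
  have h8 : C₁ * (ε / (4 * C₁)) = ε / 4 := by field_simp
  have h9 : C * (ε / (4 * (C + 1))) ≤ ε / 4 := by
    rw [mul_div_assoc', div_le_div_iff₀ (by positivity) (by positivity)]
    nlinarith
  calc _ ≤ _ := h4
    _ ≤ C * (ε / (4 * (C + 1))) + C₁ * (ε / (4 * C₁)) := by rw [h5]; exact add_le_add h6 h7
    _ < ε := by rw [h8]; linarith

end Pool.Agent.Helper69.PC
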