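import Pool.Agent.Helper69.PC.Pairs

open MeasureTheory Set Filter Topology
open scoped SchwartzMap

namespace Pool.Agent.Helper69.PC

variable (k : 𝓢(ℝ, ℝ)) (Z : Finset ℂ) (m x : ℂ → ℝ)

lemma inner_ge (hk : ∀ x, 0 ≤ k x) (hm : ∀ i, 0 ≤ m i) {B M X : ℝ} (hM : 0 ≤ M)
    (hX : 0 ≤ X) {s : ℝ} (hs0 : 0 ≤ s) (hsB : s ≤ B) :
    (∑ i ∈ Z.filter (fun i => M + B ≤ x i ∧ x i ≤ X - M), m i) * ∫ u in (-M)..M, k u ≤
      ∫ z in (0:ℝ)..X, AA k Z m x (z + s) := by
  have hkc := k.continuous
  have h0 : ∀ a b : ℝ, a ≤ b → 0 ≤ ∫ u in a..b, k u := fun a b hab =>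
    intervalIntegral.integral_nonneg hab fun u _ => hk u
  have hI := hkc.intervalIntegrable (μ := volume)
  have e1 : ∫ z in (0:ℝ)..X, AA k Z m x (z + s) =
      ∑ i ∈ Z, m i * ∫ u in (s - x i)..(X + s - x i), k u := by
    unfold AA
    rw [intervalIntegral.integral_finsetSum]
    · apply Finset.sum_congr rfl; intro i _
      rw [intervalIntegral.integral_const_mul]
      congr 1
      have : ∀ z : ℝ, k (z + s - x i) = k (z + (s - x i)) := fun z => by rw [add_sub_assoc]
      simp only [this]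
      rw [intervalIntegral.integral_comp_add_right (fun u => k u) (s - x i)]
      congr 1
      · ring
      · ring
    · intro i _
      apply Continuous.intervalIntegrable
      fun_prop
  rw [e1, Finset.sum_mul]
  calc ∑ i ∈ Z.filter (fun i => M + B ≤ x i ∧ x i ≤ X - M), m i * ∫ u in (-M)..M, k u
      ≤ ∑ i ∈ Z.filter (fun i => M + B ≤ x i ∧ x i ≤ X - M),
        m i * ∫ u in (s - x i)..(X + s - x i), k u := by
        apply Finset.sum_le_sum
        intro i hi
        rw [Finset.mem_filter] at hi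
        apply mul_le_mul_of_nonneg_left _ (hm i)
        have h5 : ∫ u in (s - x i)..(X + s - x i), k u = (∫ u in (s - x i)..(-M), k u) +
            ((∫ u in (-M)..M, k u) + ∫ u in M..(X + s - x i), k u) := by
          rw [intervalIntegral.integral_add_adjacent_intervals (hI _ _) (hI _ _),
            intervalIntegral.integral_add_adjacent_intervals (hI _ _) (hI _ _)]
        rw [h5]
        have h6 := h0 (s - x i) (-M) (by linarith [hi.2.1])
        have h7 := h0 M (X + s - x i) (by linarith [hi.2.2])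
        linarith
    _ ≤ _ := by
        apply Finset.sum_le_sum_of_subset_of_nonneg (Finset.filter_subset _ _)
        intro i _ _
        exact mul_nonneg (hm i) (h0 _ _ (by linarith))

lemma integral_WW_ge (hk : ∀ x, 0 ≤ k x) (hm : ∀ i, 0 ≤ m i) {B M X : ℝ} (hB : 0 ≤ B)
    (hM : 0 ≤ M) (hX : 0 ≤ X) :
    IntervalIntegrable (WW k Z m x B) volume 0 X ∧
    B * ((∑ i ∈ Z.filter (fun i => M + B ≤ x i ∧ x i ≤ X - M), m i) * ∫ u in (-M)..M, k u) ≤
      ∫ z in (0:ℝ)..X, WW k Z m x B z := by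
  have hcA := continuous_AA k Z m x
  have hint : Integrable (fun p : ℝ × ℝ => AA k Z m x (p.1 + p.2))
      ((volume.restrict (Ioc 0 X)).prod (volume.restrict (Ioc 0 B))) := by
    rw [Measure.prod_restrict]
    have h1 : IsCompact (Icc (0:ℝ) X ×ˢ Icc (0:ℝ) B) := isCompact_Icc.prod isCompact_Icc
    have h2 : ContinuousOn (fun p : ℝ × ℝ => AA k Z m x (p.1 + p.2)) (Icc (0:ℝ) X ×ˢ Icc (0:ℝ) B) :=
      (hcA.comp (continuous_fst.add continuous_snd)).continuousOn
    have h3 := h2.integrableOn_compact (μ := (volume : Measure ℝ).prod volume) h1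
    exact h3.mono_set (prod_mono Ioc_subset_Icc_self Ioc_subset_Icc_self)
  constructor
  · rw [intervalIntegrable_iff_integrableOn_Ioc_of_le hX]
    exact hint.integral_prod_left
  · rw [intervalIntegral.integral_of_le hX]
    unfold WW
    rw [integral_integral_swap hint]
    have h4 : ∫ _ in (0:ℝ)..B, ((∑ i ∈ Z.filter (fun i => M + B ≤ x i ∧ x i ≤ X - M), m i) *
        ∫ u in (-M)..M, k u) = B * ((∑ i ∈ Z.filter (fun i => M + B ≤ x i ∧ x i ≤ X - M), m i) *
        ∫ u in (-M)..M, k u) := by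
      rw [intervalIntegral.integral_const, smul_eq_mul]; ring
    rw [← h4, ← intervalIntegral.integral_of_le hB]
    apply intervalIntegral.integral_mono_on hB intervalIntegrable_const
    · rw [intervalIntegrable_iff_integrableOn_Ioc_of_le hB]
      exact hint.integral_prod_right
    · intro s hs
      rw [← intervalIntegral.integral_of_le hX]
      exact inner_ge k Z m x hk hm hM hX hs.1 hs.2

/-- the second moment lower bound -/
lemma DI_PS_ge (hk : ∀ x, 0 ≤ k x) (hm : ∀ i, 0 ≤ m i) {B M X c : ℝ} (hB : 0 ≤ B)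
    (hM : 0 ≤ M) (hX : 0 ≤ X) (hc : 0 ≤ c) :
    2 * c * (B * ((∑ i ∈ Z.filter (fun i => M + B ≤ x i ∧ x i ≤ X - M), m i) *
      ∫ u in (-M)..M, k u)) - c ^ 2 * X ≤
      DI B (fun v => PS Z m x (fun u => autocorr k (u - v))) := by
  obtain ⟨h1, h2⟩ := integral_WW_sq k Z m x hk hm B
  obtain ⟨h3, h4⟩ := integral_WW_ge k Z m x hk hm hB hM hX
  rw [← h2]
  have h5 : ∫ z in (0:ℝ)..X, WW k Z m x B z ^ 2 ≤ ∫ z, WW k Z m x B z ^ 2 := by
    rw [intervalIntegral.integral_of_le hX]
    exact setIntegral_le_integral h1 (Eventually.of_forall fun z => sq_nonneg _)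
  have h6 : ∫ z in (0:ℝ)..X, (2 * c * WW k Z m x B z - c ^ 2) ≤
      ∫ z in (0:ℝ)..X, WW k Z m x B z ^ 2 := by
    apply intervalIntegral.integral_mono_on hX
    · exact (h3.const_mul _).sub intervalIntegrable_const
    · rw [intervalIntegrable_iff_integrableOn_Ioc_of_le hX]
      exact h1.integrableOn
    · intro z _
      nlinarith [sq_nonneg (WW k Z m x B z - c)]
  rw [intervalIntegral.integral_sub (h3.const_mul _) intervalIntegrable_const,
    intervalIntegral.integral_const_mul, intervalIntegral.integral_const, smul_eq_mul] at h6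
  have h7 : 2 * c * (B * ((∑ i ∈ Z.filter (fun i => M + B ≤ x i ∧ x i ≤ X - M), m i) *
      ∫ u in (-M)..M, k u)) ≤ 2 * c * ∫ z in (0:ℝ)..X, WW k Z m x B z :=
    mul_le_mul_of_nonneg_left h4 (by positivity)
  linarith

end Pool.Agent.Helper69.PC
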