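import Pool.Agent.Helper69.PC.DI

open MeasureTheory Set Filter Topology
open scoped SchwartzMap

namespace Pool.Agent.Helper69.PC

/-- weighted pair sum of `f` over differences -/
noncomputable def PS (Z : Finset ℂ) (m x : ℂ → ℝ) (f : ℝ → ℝ) : ℝ :=
  ∑ i ∈ Z, ∑ j ∈ Z, m i * m j * f (x i - x j)

/-- smoothed counting function -/
noncomputable def AA (k : 𝓢(ℝ, ℝ)) (Z : Finset ℂ) (m x : ℂ → ℝ) (z : ℝ) : ℝ :=
  ∑ i ∈ Z, m i * k (z - x i)

variable (k : 𝓢(ℝ, ℝ)) (Z : Finset ℂ) (m x : ℂ → ℝ)

lemma continuous_AA : Continuous (AA k Z m x) := by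
  unfold AA
  exact continuous_finsetSum _ fun i _ =>
    continuous_const.mul (k.continuous.comp (continuous_id.sub continuous_const))

lemma AA_nonneg (hk : ∀ x, 0 ≤ k x) (hm : ∀ i, 0 ≤ m i) (z : ℝ) : 0 ≤ AA k Z m x z :=
  Finset.sum_nonneg fun i _ => mul_nonneg (hm i) (hk _)

lemma AA_mul (s t z : ℝ) : AA k Z m x (z + s) * AA k Z m x (z + t) =
    ∑ i ∈ Z, ∑ j ∈ Z, m i * m j * (k (z - (x i - s)) * k (z - (x j - t))) := by
  unfold AA
  rw [Finset.sum_mul_sum]
  apply Finset.sum_congr rfl; intro i _
  apply Finset.sum_congr rfl; intro j _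
  rw [show z + s - x i = z - (x i - s) by ring, show z + t - x j = z - (x j - t) by ring]
  ring

lemma integrable_AA_mul (s t : ℝ) :
    Integrable fun z => AA k Z m x (z + s) * AA k Z m x (z + t) := by
  simp only [AA_mul]
  exact integrable_finsetSum _ fun i _ => integrable_finsetSum _ fun j _ =>
    (integrable_mul_shift k _ _).const_mul _

lemma integral_AA_mul (s t : ℝ) : ∫ z, AA k Z m x (z + s) * AA k Z m x (z + t) =
    PS Z m x (fun u => autocorr k (u - (s - t))) := by
  simp only [AA_mul]
  unfold PS
  rw [integral_finsetSum]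
  · apply Finset.sum_congr rfl; intro i _
    rw [integral_finsetSum]
    · apply Finset.sum_congr rfl; intro j _
      rw [integral_const_mul, integral_shift]
      congr 2
      ring
    · intro j _
      exact (integrable_mul_shift k _ _).const_mul _
  · intro i _
    exact integrable_finsetSum _ fun j _ => (integrable_mul_shift k _ _).const_mul _

/-- positive definiteness: the translated pair sum is at most the central one -/
lemma PS_shift_le (v : ℝ) :
    PS Z m x (fun u => autocorr k (u - v)) ≤ PS Z m x (autocorr k) := by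
  have h1 := integral_AA_mul k Z m x v 0
  have h2 := integral_AA_mul k Z m x v v
  have h3 := integral_AA_mul k Z m x 0 0
  simp only [sub_zero, sub_self] at h1 h2 h3
  have h4 : ∫ z, AA k Z m x (z + v) * AA k Z m x (z + 0) ≤
      ∫ z, (1 / 2) * (AA k Z m x (z + v) * AA k Z m x (z + v)) +
        (1 / 2) * (AA k Z m x (z + 0) * AA k Z m x (z + 0)) := by
    apply integral_mono (integrable_AA_mul k Z m x v 0)
    · exact ((integrable_AA_mul k Z m x v v).const_mul _).add
        ((integrable_AA_mul k Z m x 0 0).const_mul _)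
    · intro z
      simp only
      nlinarith [sq_nonneg (AA k Z m x (z + v) - AA k Z m x (z + 0))]
  rw [integral_add ((integrable_AA_mul k Z m x v v).const_mul _)
        ((integrable_AA_mul k Z m x 0 0).const_mul _), integral_const_mul, integral_const_mul,
        h1, h2, h3] at h4
  have h5 : PS Z m x (fun u => autocorr k u) = PS Z m x (autocorr k) := rfl
  linarith

lemma continuous_PS : Continuous fun v => PS Z m x (fun u => autocorr k (u - v)) := by
  unfold PS
  exact continuous_finsetSum _ fun i _ => continuous_finsetSum _ fun j _ =>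
    continuous_const.mul ((continuous_autocorr k).comp (continuous_const.sub continuous_id))

lemma PS_nonneg (hk : ∀ x, 0 ≤ k x) (hm : ∀ i, 0 ≤ m i) (v : ℝ) :
    0 ≤ PS Z m x (fun u => autocorr k (u - v)) :=
  Finset.sum_nonneg fun i _ => Finset.sum_nonneg fun j _ =>
    mul_nonneg (mul_nonneg (hm i) (hm j)) (autocorr_nonneg k hk _)

/-- the windowed sum -/
noncomputable def WW (B : ℝ) (z : ℝ) : ℝ := ∫ s, AA k Z m x (z + s) ∂(volume.restrict (Ioc 0 B))

lemma integral_WW_sq (hk : ∀ x, 0 ≤ k x) (hm : ∀ i, 0 ≤ m i) (B : ℝ) :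
    Integrable (fun z => WW k Z m x B z ^ 2) ∧
    ∫ z, WW k Z m x B z ^ 2 = DI B (fun v => PS Z m x (fun u => autocorr k (u - v))) := by
  set μ : Measure ℝ := volume.restrict (Ioc 0 B) with hμ
  have h1 : ∀ z, WW k Z m x B z ^ 2 =
      ∫ p : ℝ × ℝ, AA k Z m x (z + p.1) * AA k Z m x (z + p.2) ∂(μ.prod μ) := by
    intro z
    rw [integral_prod_mul (fun s => AA k Z m x (z + s)) (fun t => AA k Z m x (z + t))]
    unfold WW
    rw [sq]
  have hcont : Continuous (fun q : ℝ × (ℝ × ℝ) => AA k Z m x (q.1 + q.2.1) * AA k Z m x (q.1 + q.2.2)) := by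
    have := continuous_AA k Z m x
    fun_prop
  have hint : Integrable (fun q : ℝ × (ℝ × ℝ) => AA k Z m x (q.1 + q.2.1) * AA k Z m x (q.1 + q.2.2))
      (volume.prod (μ.prod μ)) := by
    rw [integrable_prod_iff' hcont.aestronglyMeasurable]
    constructor
    · filter_upwards with p
      exact integrable_AA_mul k Z m x p.1 p.2
    · have h2 : (fun p : ℝ × ℝ => ∫ z, ‖AA k Z m x (z + p.1) * AA k Z m x (z + p.2)‖) =
          fun p => PS Z m x (fun u => autocorr k (u - (p.1 - p.2))) := by
        ext p
        rw [← integral_AA_mul]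
        apply integral_congr_ae
        filter_upwards with z
        exact Real.norm_of_nonneg (mul_nonneg (AA_nonneg k Z m x hk hm _) (AA_nonneg k Z m x hk hm _))
      simp only
      rw [h2]
      exact DI_integrable B (continuous_PS k Z m x)
  constructor
  · simp only [h1]
    exact hint.integral_prod_left
  · simp only [h1]
    rw [integral_integral_swap hint]
    unfold DI
    apply integral_congr_ae
    filter_upwards with p
    exact integral_AA_mul k Z m x p.1 p.2

end Pool.Agent.Helper69.PC
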