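import Pool.Agent.Helper69.PC.DenseV

open MeasureTheory Set Filter Topology FourierTransform
open scoped SchwartzMap Convolution ContDiff
open Pool.Agent.Helper57.PC Pool.Agent.Helper57.Zeta

namespace Pool.Agent.Helper69.PC

/-- window asymptotics for all positive windows -/
def HW (l : Filter ℝ) : Prop := ∀ α β : ℝ, 0 < α → α < β →
  Tendsto (fun T => pairCount T α β / SN T) l (𝓝 (∫ u in α..β, pcDensity u))

/-- near-diagonal bound -/
def HD (l : Filter ℝ) : Prop := ∀ δ : ℝ, 0 < δ → ∃ ε : ℝ, 0 < ε ∧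
  ∀ᶠ T in l, pairCount T (-ε) ε ≤ (1 + δ) * SN T

lemma one_le_mult {T : ℝ} : ∀ ρ ∈ Zf T, (1:ℝ) ≤ mult ρ := by
  intro ρ hρ
  rw [mem_Zf] at hρ
  have h4 : mult ρ ≠ 0 := by
    rw [mult_eq hρ.1]
    intro h5
    have h6 := isNontrivialZero_iff.mp hρ.1
    rw [analyticOrderNatAt] at h5
    have han : AnalyticAt ℂ xi ρ := (differentiable_xi.analyticAt ρ)
    rcases ENat.toNat_eq_zero.mp h5 with h7 | h7
    · exact (han.analyticOrderAt_ne_zero.mpr h6) h7
    · have h8 := (analyticOrderAt_eq_top.mp h7)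
      have h9 : AnalyticOnNhd ℂ xi univ := fun z _ => differentiable_xi.analyticAt z
      have h10 := h9.eqOn_zero_of_preconnected_of_eventuallyEq_zero isPreconnected_univ
        (mem_univ ρ) h8
      exact xi_two_ne (h10 (mem_univ 2))
  exact_mod_cast Nat.one_le_iff_ne_zero.mpr h4

lemma NT_le_diag (T : ℝ) : NT T ≤ pairCount T 0 0 := by
  classical
  rw [pairCount_eq, Finset.sum_product]
  unfold NT
  apply Finset.sum_le_sum
  intro ρ hρ
  have hz : nd T (ρ, ρ) ∈ Icc (0:ℝ) 0 := by
    unfold nd; simp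
  have hnn : ∀ j ∈ Zf T, 0 ≤ (if nd T (ρ, j) ∈ Icc (0:ℝ) 0 then
      (mult (ρ, j).1 : ℝ) * (mult (ρ, j).2 : ℝ) else 0) := by
    intro j _
    split_ifs <;> positivity
  have h5 := Finset.single_le_sum hnn hρ
  rw [if_pos hz] at h5
  refine le_trans ?_ h5
  exact le_mul_of_one_le_right (Nat.cast_nonneg _) (one_le_mult ρ hρ)

lemma pairCount_sym_ge (T : ℝ) {e t : ℝ} (he : 0 < e) (het : e < t) :
    pairCount T 0 0 + 2 * pairCount T e t ≤ pairCount T (-t) t := by
  classical
  have h1 : 2 * pairCount T e t = pairCount T (-t) (-e) + pairCount T e t := by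
    rw [pairCount_neg T e t]; ring
  rw [h1, pairCount_eq, pairCount_eq, pairCount_eq, pairCount_eq, ← Finset.sum_add_distrib,
    ← Finset.sum_add_distrib]
  apply Finset.sum_le_sum
  intro p _
  have hm : (0:ℝ) ≤ (mult p.1 : ℝ) * (mult p.2 : ℝ) := by positivity
  simp only [mem_Icc]
  by_cases h0 : 0 ≤ nd T p ∧ nd T p ≤ 0
  · rw [if_pos h0, if_neg (by rintro ⟨_, h⟩; linarith [h0.1]),
      if_neg (by rintro ⟨h, _⟩; linarith [h0.2]), if_pos ⟨by linarith [h0.1], by linarith [h0.2]⟩]
    linarith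
  · rw [if_neg h0]
    by_cases h2 : -t ≤ nd T p ∧ nd T p ≤ -e
    · rw [if_pos h2, if_neg (by rintro ⟨h, _⟩; linarith [h2.2]),
        if_pos ⟨h2.1, by linarith [h2.2]⟩]
      linarith
    · rw [if_neg h2]
      by_cases h3 : e ≤ nd T p ∧ nd T p ≤ t
      · rw [if_pos h3, if_pos ⟨by linarith [h3.1], h3.2⟩]
        linarith
      · rw [if_neg h3]
        split_ifs <;> linarith

/-- symmetric windows -/
lemma sym_conv {l : Filter ℝ} (hl : l ≤ atTop) (hW : HW l) (hDg : HD l) {t : ℝ} (ht : 0 < t) :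
    Tendsto (fun T => pairCount T (-t) t / SN T) l (𝓝 (1 + 2 * ∫ u in (0:ℝ)..t, pcDensity u)) := by
  rw [Metric.tendsto_nhds]
  intro δ hδ
  obtain ⟨ε₀, hε₀, h1⟩ := hDg (δ / 4) (by positivity)
  set e : ℝ := min ε₀ (min (t / 2) (δ / 8)) with he
  have he0 : 0 < e := by rw [he]; positivity
  have he1 : e ≤ ε₀ := min_le_left _ _
  have he2 : e ≤ t / 2 := (min_le_right _ _).trans (min_le_left _ _)
  have he3 : e ≤ δ / 8 := (min_le_right _ _).trans (min_le_right _ _)
  have h2 := hW e t he0 (by linarith)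
  rw [Metric.tendsto_nhds] at h2
  obtain ⟨T₀, hT₀⟩ := NT_lower (δ / 8) (by positivity)
  have hsplit : ∫ u in (0:ℝ)..t, pcDensity u = (∫ u in (0:ℝ)..e, pcDensity u) + ∫ u in e..t, pcDensity u :=
    (intervalIntegral.integral_add_adjacent_intervals
      (intervalIntegrable_pcDensity _ _) (intervalIntegrable_pcDensity _ _)).symm
  have h0e : 0 ≤ ∫ u in (0:ℝ)..e, pcDensity u :=
    intervalIntegral.integral_nonneg he0.le fun u _ => pcDensity_nonneg u
  have h0e' := pc_integral_le_length he0.le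
  filter_upwards [h1, h2 (δ / 8) (by positivity), hl (eventually_ge_atTop T₀),
    hl (eventually_gt_atTop 1)] with T h3 h4 h5 h6
  have hS := SN_pos h6
  have hN : (1 - δ / 8) * SN T ≤ NT T := hT₀ T h5
  rw [Real.dist_eq, abs_lt] at h4 ⊢
  have h7 : pairCount T (-e) e ≤ (1 + δ / 4) * SN T :=
    (pairCount_mono T (neg_le_neg he1) he1).trans h3
  have h8 := pairCount_sym_le T (e := e) (b := t)
  have h9 := pairCount_sym_ge T he0 (show e < t by linarith)
  have h10 := NT_le_diag T
  set I := ∫ u in e..t, pcDensity u with hI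
  have h11 : pairCount T e t / SN T < I + δ / 8 := by linarith [h4.2]
  have h12 : I - δ / 8 < pairCount T e t / SN T := by linarith [h4.1]
  rw [div_lt_iff₀ hS] at h11
  rw [lt_div_iff₀ hS] at h12
  rw [hsplit]
  constructor
  · have h13 : (1 + 2 * ((∫ u in (0:ℝ)..e, pcDensity u) + I) - δ) < pairCount T (-t) t / SN T := by
      rw [lt_div_iff₀ hS]
      nlinarith
    linarith
  · have h13 : pairCount T (-t) t / SN T < (1 + 2 * ((∫ u in (0:ℝ)..e, pcDensity u) + I)) + δ := by
      rw [div_lt_iff₀ hS]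
      nlinarith
    linarith

/-- a compactly supported bump as a Schwartz function -/
noncomputable def bumpS : 𝓢(ℝ, ℝ) :=
  (ContDiffBump.hasCompactSupport (⟨1 / 2, 1, by norm_num, by norm_num⟩ : ContDiffBump (0:ℝ))).toSchwartzMap
    (ContDiffBump.contDiff _)

lemma bumpS_apply (x : ℝ) :
    bumpS x = (⟨1 / 2, 1, by norm_num, by norm_num⟩ : ContDiffBump (0:ℝ)) x := rfl

lemma bumpS_nonneg (x : ℝ) : 0 ≤ bumpS x := by
  rw [bumpS_apply]; exact ContDiffBump.nonneg _

lemma bumpS_zero {x : ℝ} (hx : 1 ≤ |x|) : bumpS x = 0 := by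
  rw [bumpS_apply]
  apply ContDiffBump.zero_of_le_dist
  rw [dist_zero_right, Real.norm_eq_abs]
  exact hx

lemma bumpS_integral_pos : 0 < ∫ x, bumpS x := by
  have h := ContDiffBump.integral_pos (μ := (volume : Measure ℝ))
    (⟨1 / 2, 1, by norm_num, by norm_num⟩ : ContDiffBump (0:ℝ))
  exact h

/-- weight bound from the window hypotheses -/
lemma weight_of_windows {l : Filter ℝ} (hl : l ≤ atTop) (hW : HW l) (hDg : HD l) :
    ∃ C > 0, ∀ᶠ T in l, ER T (fun u => (1 + u ^ 2)⁻¹) ≤ C := by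
  obtain ⟨Cg, hCg0, hCg⟩ := bounded_autocorr bumpS
  have h2 := sym_conv hl hW hDg (t := 2) two_pos
  set J := 1 + 2 * ∫ u in (0:ℝ)..2, pcDensity u with hJ
  have hJ0 : 0 < J := by
    have : 0 ≤ ∫ u in (0:ℝ)..2, pcDensity u :=
      intervalIntegral.integral_nonneg (by norm_num) fun u _ => pcDensity_nonneg u
    rw [hJ]; linarith
  apply ER_weight_bdd' bumpS bumpS_nonneg bumpS_integral_pos hl
    (M := (Cg + 1) * (J + 1)) (by positivity)
  filter_upwards [h2.eventually (gt_mem_nhds (show J < J + 1 by linarith)),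
    hl (eventually_gt_atTop 1)] with T h3 h4
  have h5 : SS bumpS T 0 = ER T (autocorr bumpS) := by
    unfold SS ER
    simp only [sub_zero]
  have h6 : ER T (fun u => (Cg + 1)⁻¹ * autocorr bumpS u) ≤ pairCount T (-2) 2 / SN T := by
    apply le_pairCount_div h4
    · intro u
      rw [inv_mul_le_iff₀ (by positivity)]
      have := (abs_le.mp (hCg u)).2
      linarith
    · intro u hu
      have h7 : autocorr bumpS u = 0 := by
        unfold autocorr
        have : ∀ y, bumpS y * bumpS (y + u) = 0 := by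
          intro y
          by_cases hy : 1 ≤ |y|
          · rw [bumpS_zero hy, zero_mul]
          · rw [bumpS_zero (x := y + u), mul_zero]
            by_contra hcon
            rw [not_le, abs_lt] at hcon hy
            apply hu
            constructor <;> linarith [hcon.1, hcon.2, hy.1, hy.2]
        simp [this]
      rw [h7, mul_zero]
  rw [ER_const_mul, inv_mul_le_iff₀ (by positivity)] at h6
  rw [h5]
  refine h6.trans (mul_le_mul_of_nonneg_left h3.le (by positivity))

end Pool.Agent.Helper69.PC
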