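import Pool.Agent.Helper69.PC.Rev

open MeasureTheory Set Filter Topology FourierTransform
open scoped SchwartzMap Convolution ContDiff
open Pool.Agent.Helper57.PC Pool.Agent.Helper57.Zeta

namespace Pool.Agent.Helper69.PC

variable (e : 𝓢(ℝ, ℝ))

/-- the derivative as a Schwartz function -/
noncomputable def dS (e : 𝓢(ℝ, ℝ)) : 𝓢(ℝ, ℝ) := SchwartzMap.derivCLM ℝ ℝ e

lemma hasDerivAt_S (x : ℝ) : HasDerivAt e (dS e x) x := by
  unfold dS
  rw [SchwartzMap.derivCLM_apply]
  exact (e.differentiable x).hasDerivAt

lemma tendsto_S_atTop : Tendsto e atTop (𝓝 0) := by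
  have h1 := e.toZeroAtInfty.zero_at_infty'
  have h2 : Tendsto (fun x : ℝ => x) atTop (cocompact ℝ) := atTop_le_cocompact
  exact h1.comp h2

lemma integral_tail (a : ℝ) : ∫ t in Ioi a, - dS e t = e a := by
  have h := integral_Ioi_of_hasDerivAt_of_tendsto' (a := a) (f := fun t => - e t)
    (f' := fun t => - dS e t) (m := 0) (fun x _ => (hasDerivAt_S e x).neg)
    (dS e).integrable.neg.integrableOn (by simpa using (tendsto_S_atTop e).neg)
  rw [h]; ring

lemma even_rep (he : ∀ x, e (-x) = e x) (u : ℝ) :
    e u = ∫ t in Ioi 0, (- dS e t) * (if |u| ≤ t then 1 else 0) := by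
  have h1 : e u = e |u| := by
    rcases abs_choice u with h | h
    · rw [h]
    · rw [h, he]
  rw [h1, ← integral_tail e |u|]
  have h2 : ∫ t in Ioi (0:ℝ), (- dS e t) * (if |u| ≤ t then (1:ℝ) else 0) =
      ∫ t in Ioi (0:ℝ), (Ici |u|).indicator (fun t => - dS e t) t := by
    apply integral_congr_ae
    filter_upwards with t
    by_cases h : |u| ≤ t
    · rw [if_pos h, mul_one, indicator_of_mem (show t ∈ Ici |u| from h)]
    · rw [if_neg h, mul_zero, indicator_of_notMem (show t ∉ Ici |u| from h)]
  rw [h2, setIntegral_indicator measurableSet_Ici]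
  rcases (abs_nonneg u).lt_or_eq with h | h
  · have : Ioi (0:ℝ) ∩ Ici |u| = Ici |u| := inter_eq_right.mpr fun x hx => lt_of_lt_of_le h hx
    rw [this, integral_Ici_eq_integral_Ioi]
  · rw [← h]
    have : Ioi (0:ℝ) ∩ Ici 0 = Ioi 0 :=
      inter_eq_left.mpr fun x hx => mem_Ici.mpr (le_of_lt (mem_Ioi.mp hx))
    rw [this]

lemma pairCount_sym_eq (T t : ℝ) : pairCount T (-t) t =
    ∑ i ∈ Zf T, ∑ j ∈ Zf T, mr i * mr j * (if |xp T i - xp T j| ≤ t then 1 else 0) := by
  classical
  rw [pairCount_eq, Finset.sum_product]
  apply Finset.sum_congr rfl; intro i _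
  apply Finset.sum_congr rfl; intro j _
  have hnd : nd T (i, j) = xp T i - xp T j := by unfold nd xp; ring
  simp only [hnd, mem_Icc, ← abs_le]
  split_ifs
  · rw [mul_one]; rfl
  · rw [mul_zero]

lemma integrable_ite (c : ℝ) : IntegrableOn (fun t => (- dS e t) * (if c ≤ t then 1 else 0)) (Ioi 0) := by
  apply Integrable.mul_bdd (c := 1) (dS e).integrable.neg.integrableOn
  · apply Measurable.aestronglyMeasurable
    exact Measurable.ite measurableSet_Ici measurable_const measurable_const
  · filter_upwards with t
    split_ifs <;> simp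

lemma ER_even (he : ∀ x, e (-x) = e x) (T : ℝ) :
    ER T e = ∫ t in Ioi 0, (- dS e t) * (pairCount T (-t) t / SN T) := by
  have h1 : ∀ t, (- dS e t) * (pairCount T (-t) t / SN T) =
      (∑ i ∈ Zf T, ∑ j ∈ Zf T, mr i * mr j *
        ((- dS e t) * (if |xp T i - xp T j| ≤ t then 1 else 0))) / SN T := by
    intro t
    rw [pairCount_sym_eq, mul_div_assoc', Finset.mul_sum]
    congr 1
    apply Finset.sum_congr rfl; intro i _
    rw [Finset.mul_sum]
    apply Finset.sum_congr rfl; intro j _
    ring
  simp only [h1]
  rw [integral_div, integral_finsetSum]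
  · unfold ER PS
    congr 1
    apply Finset.sum_congr rfl; intro i _
    rw [integral_finsetSum]
    · apply Finset.sum_congr rfl; intro j _
      rw [integral_const_mul, ← even_rep e he]
    · intro j _
      exact (integrable_ite e _).const_mul _
  · intro i _
    exact integrable_finsetSum _ fun j _ => (integrable_ite e _).const_mul _

lemma measurable_pc : Measurable pcDensity := by
  have : pcDensity = fun u => 1 - Pool.Agent.Helper57.PC.sq u := rfl
  rw [this]
  exact measurable_const.sub measurable_sq

lemma continuousAt_pc {t : ℝ} (ht : t ≠ 0) : ContinuousAt pcDensity t := by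
  unfold pcDensity
  have : Real.pi * t ≠ 0 := mul_ne_zero Real.pi_ne_zero ht
  fun_prop (disch := assumption)

/-- integration by parts for the limit functional -/
lemma limit_eval (he : ∀ x, e (-x) = e x) :
    ∫ t in Ioi 0, (- dS e t) * (1 + 2 * ∫ u in (0:ℝ)..t, pcDensity u) =
      e 0 + ∫ u, pcDensity u * e u := by
  set P : ℝ → ℝ := fun t => ∫ u in (0:ℝ)..t, pcDensity u with hP
  have hPc : Continuous P :=
    intervalIntegral.continuous_primitive (fun a b => intervalIntegrable_pcDensity a b) 0
  have hPd : ∀ t : ℝ, 0 < t → HasDerivAt P (pcDensity t) t := fun t ht =>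
    intervalIntegral.integral_hasDerivAt_right (intervalIntegrable_pcDensity _ _)
      (measurable_pc.stronglyMeasurable.stronglyMeasurableAtFilter) (continuousAt_pc ht.ne')
  have hP0 : ∀ t : ℝ, 0 ≤ t → 0 ≤ P t := fun t ht =>
    intervalIntegral.integral_nonneg ht fun u _ => pcDensity_nonneg u
  have hP1 : ∀ t : ℝ, 0 ≤ t → P t ≤ t := fun t ht => by
    have := pc_integral_le_length ht
    simpa using this
  have hi1 : IntegrableOn (fun t => (- dS e t) * (1 + 2 * P t)) (Ioi 0) := by
    have hb : Integrable fun t : ℝ => ‖dS e t‖ + 2 * (‖t‖ ^ 1 * ‖dS e t‖) :=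
      (dS e).integrable.norm.add (((dS e).integrable_pow_mul volume 1).const_mul 2)
    refine Integrable.mono' hb.integrableOn ?_ ?_
    · exact ((dS e).continuous.neg.mul (continuous_const.add (continuous_const.mul hPc))).aestronglyMeasurable
    · filter_upwards [ae_restrict_mem measurableSet_Ioi] with t ht
      have ht0 : (0:ℝ) ≤ t := le_of_lt ht
      rw [norm_mul, norm_neg, Real.norm_of_nonneg (r := 1 + 2 * P t)
        (by have := hP0 t ht0; linarith), pow_one, Real.norm_of_nonneg ht0]
      have := hP1 t ht0
      nlinarith [norm_nonneg (dS e t)]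
  have hi2 : IntegrableOn (fun t => 2 * (pcDensity t * e t)) (Ioi 0) := by
    have : Integrable fun t => pcDensity t * e t := by
      refine e.integrable.bdd_mul (c := 1) measurable_pc.aestronglyMeasurable ?_
      filter_upwards with u
      rw [Real.norm_of_nonneg (pcDensity_nonneg _)]
      exact pcDensity_le_one _
    exact (this.const_mul 2).integrableOn
  have hmain := integral_Ioi_of_hasDerivAt_of_tendsto (a := (0:ℝ))
    (f := fun t => - e t * (1 + 2 * P t))
    (f' := fun t => (- dS e t) * (1 + 2 * P t) - 2 * (pcDensity t * e t)) (m := 0)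
    (by
      apply Continuous.continuousWithinAt
      have := e.continuous
      fun_prop)
    (by
      intro t ht
      have h1 := ((hasDerivAt_S e t).neg).mul (((hPd t ht).const_mul 2).const_add 1)
      refine h1.congr_deriv ?_
      simp only [Pi.neg_apply]
      ring)
    (hi1.sub hi2)
    (by
      -- decay
      have h2 : Tendsto (fun t : ℝ => (SchwartzMap.seminorm ℝ 0 0 e + 0) * 0) atTop (𝓝 0) := by simp
      obtain ⟨C, hC⟩ := e.decay 2 0
      apply squeeze_zero_norm' (a := fun t : ℝ => C * 3 * t⁻¹)
      · filter_upwards [eventually_ge_atTop 1] with t ht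
        have ht0 : (0:ℝ) ≤ t := by linarith
        have h3 := hC.2 t
        rw [norm_iteratedFDeriv_zero, Real.norm_of_nonneg ht0] at h3
        rw [norm_mul, norm_neg, Real.norm_of_nonneg (r := 1 + 2 * P t)
          (by have := hP0 t ht0; linarith)]
        have h4 := hP1 t ht0
        rw [← div_eq_mul_inv, le_div_iff₀ (by linarith)]
        have h5 : 1 + 2 * P t ≤ 3 * t := by linarith
        calc ‖e t‖ * (1 + 2 * P t) * t ≤ ‖e t‖ * (3 * t) * t := by
              apply mul_le_mul_of_nonneg_right _ ht0
              exact mul_le_mul_of_nonneg_left h5 (norm_nonneg _)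
          _ = 3 * (t ^ 2 * ‖e t‖) := by ring
          _ ≤ 3 * C := by linarith
          _ = C * 3 := by ring
      · have := tendsto_inv_atTop_zero (𝕜 := ℝ)
        simpa using this.const_mul (C * 3))
  rw [integral_sub hi1 hi2, integral_const_mul] at hmain
  have hz : P 0 = 0 := by rw [hP]; simp
  simp only [hz, mul_zero, add_zero, mul_one, zero_sub, neg_neg] at hmain
  -- symmetric integral
  have hsymm : ∫ u, pcDensity u * e u = 2 * ∫ u in Ioi (0:ℝ), pcDensity u * e u := by
    rw [← integral_comp_abs (f := fun u => pcDensity u * e u)]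
    apply integral_congr_ae
    filter_upwards with u
    rcases abs_choice u with h | h
    · rw [h]
    · rw [h, he]
      congr 1
      rw [pcDensity_eq, pcDensity_eq, sq_even]
  rw [hsymm]
  linarith

end Pool.Agent.Helper69.PC
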