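import Pool.Agent.Helper69.PC.Rev2

open MeasureTheory Set Filter Topology FourierTransform
open scoped SchwartzMap Convolution ContDiff
open Pool.Agent.Helper57.PC Pool.Agent.Helper57.Zeta

namespace Pool.Agent.Helper69.PC

lemma even_limit {l : Filter ℝ} [l.IsCountablyGenerated] (hl : l ≤ atTop) (hW : HW l) (hDg : HD l)
    (e : 𝓢(ℝ, ℝ)) (he : ∀ x, e (-x) = e x) :
    Tendsto (fun T => ER T e) l (𝓝 (e 0 + ∫ u, pcDensity u * e u)) := by
  obtain ⟨C, hC0, hC⟩ := weight_of_windows hl hW hDg
  rw [← limit_eval e he]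
  simp only [ER_even e he]
  have hmeas : ∀ T, AEStronglyMeasurable (fun t => (- dS e t) * (pairCount T (-t) t / SN T))
      (volume.restrict (Ioi 0)) := by
    intro T
    apply Measurable.aestronglyMeasurable
    apply Measurable.mul (dS e).continuous.measurable.neg
    apply Measurable.div_const
    simp only [pairCount_sym_eq]
    refine Finset.measurable_sum _ fun i _ => Finset.measurable_sum _ fun j _ => ?_
    apply Measurable.const_mul
    exact Measurable.ite measurableSet_Ici measurable_const measurable_const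
  apply tendsto_integral_filter_of_dominated_convergence
    (fun t => C * (‖dS e t‖ + ‖t‖ ^ 2 * ‖dS e t‖))
  · filter_upwards with T
    exact hmeas T
  · filter_upwards [hC, hl (eventually_gt_atTop 1)] with T h1 h2
    filter_upwards [ae_restrict_mem measurableSet_Ioi] with t ht
    have hS := SN_pos h2
    have ht0 : (0:ℝ) < t := ht
    have h3 : ER T (fun u => (1 + t ^ 2)⁻¹ * (if |u| ≤ t then 1 else 0)) ≤
        ER T (fun u => (1 + u ^ 2)⁻¹) := by
      apply ER_mono h2
      intro u
      split_ifs with h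
      · rw [mul_one]
        apply inv_anti₀ (by positivity)
        have : u ^ 2 ≤ t ^ 2 := sq_le_sq' (by linarith [(abs_le.mp h).1]) (abs_le.mp h).2
        linarith
      · rw [mul_zero]; positivity
    have h4 : ER T (fun u => (if |u| ≤ t then 1 else 0)) = pairCount T (-t) t / SN T := by
      rw [pairCount_sym_eq]; rfl
    rw [ER_const_mul, h4, inv_mul_le_iff₀ (by positivity)] at h3
    rw [norm_mul, norm_neg, Real.norm_of_nonneg (r := pairCount T (-t) t / SN T)
      (div_nonneg (pairCount_nonneg _ _ _) hS.le)]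
    have h5 : pairCount T (-t) t / SN T ≤ (1 + t ^ 2) * C :=
      h3.trans (mul_le_mul_of_nonneg_left h1 (by positivity))
    calc _ ≤ ‖dS e t‖ * ((1 + t ^ 2) * C) := mul_le_mul_of_nonneg_left h5 (norm_nonneg _)
      _ = _ := by rw [Real.norm_of_nonneg (r := t) ht0.le]; ring
  · have h1 := (dS e).integrable (μ := volume)
    have h2 := (dS e).integrable_pow_mul volume 2
    exact ((h1.norm.add h2).const_mul C).integrableOn
  · filter_upwards [ae_restrict_mem measurableSet_Ioi] with t ht
    exact (sym_conv hl hW hDg ht).const_mul _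

/-- reflection -/
noncomputable def negS (f : 𝓢(ℝ, ℝ)) : 𝓢(ℝ, ℝ) :=
  SchwartzMap.compCLMOfContinuousLinearEquiv ℝ (LinearIsometryEquiv.neg ℝ (E := ℝ)) f

lemma negS_apply (f : 𝓢(ℝ, ℝ)) (x : ℝ) : negS f x = f (-x) := by
  unfold negS
  simp

lemma ER_neg (T : ℝ) (f : ℝ → ℝ) : ER T (fun u => f (-u)) = ER T f := by
  unfold ER PS
  rw [Finset.sum_comm]
  congr 1
  apply Finset.sum_congr rfl; intro i _
  apply Finset.sum_congr rfl; intro j _
  change mr j * mr i * f (-(xp T j - xp T i)) = mr i * mr j * f (xp T i - xp T j)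
  rw [neg_sub, mul_comm (mr j)]

lemma ER_add (T : ℝ) (f g : ℝ → ℝ) : ER T (fun u => f u + g u) = ER T f + ER T g := by
  unfold ER PS
  rw [← add_div, ← Finset.sum_add_distrib]
  congr 1
  apply Finset.sum_congr rfl; intro i _
  rw [← Finset.sum_add_distrib]
  apply Finset.sum_congr rfl; intro j _
  ring

lemma integrable_pc_real (f : 𝓢(ℝ, ℝ)) : Integrable fun t => pcDensity t * f t := by
  refine f.integrable.bdd_mul (c := 1) measurable_pc.aestronglyMeasurable ?_
  filter_upwards with u
  rw [Real.norm_of_nonneg (pcDensity_nonneg _)]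
  exact pcDensity_le_one _

/-- full convergence for Schwartz functions from the window hypotheses -/
theorem schwartz_of_windows {l : Filter ℝ} [l.IsCountablyGenerated] (hl : l ≤ atTop) (hW : HW l)
    (hDg : HD l) (f : 𝓢(ℝ, ℝ)) :
    Tendsto (fun T => ER T f) l (𝓝 (f 0 + ∫ u, pcDensity u * f u)) := by
  have he : ∀ x, (f + negS f) (-x) = (f + negS f) x := by
    intro x
    rw [add_apply, add_apply, negS_apply, negS_apply, neg_neg, add_comm]
  have h1 := even_limit hl hW hDg (f + negS f) he
  have h2 : ∀ T, ER T ⇑(f + negS f : 𝓢(ℝ, ℝ)) = 2 * ER T f := by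
    intro T
    have : (⇑(f + negS f) : ℝ → ℝ) = fun u => f u + f (-u) := by
      ext u; rw [add_apply, negS_apply]
    rw [this, ER_add, ER_neg]; ring
  have h3 : ∫ u, pcDensity u * (f + negS f) u = 2 * ∫ u, pcDensity u * f u := by
    have h4 : ∀ u, pcDensity u * (f + negS f) u = pcDensity u * f u + pcDensity u * negS f u := by
      intro u; rw [add_apply]; ring
    simp only [h4]
    rw [integral_add (integrable_pc_real f) (integrable_pc_real (negS f))]
    have h5 : ∫ u, pcDensity u * negS f u = ∫ u, pcDensity u * f u := by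
      rw [← integral_neg_eq_self]
      apply integral_congr_ae
      filter_upwards with u
      rw [negS_apply, neg_neg, pcDensity_eq, pcDensity_eq, sq_even]
    rw [h5]; ring
  have h4 : (f + negS f) 0 = 2 * f 0 := by
    rw [add_apply, negS_apply, neg_zero]; ring
  rw [h3, h4] at h1
  simp only [h2] at h1
  have h5 := h1.const_mul (1 / 2)
  have h6 : (1 / 2) * (2 * f 0 + 2 * ∫ u, pcDensity u * f u) = f 0 + ∫ u, pcDensity u * f u := by
    ring
  rw [h6] at h5
  refine h5.congr fun T => ?_
  ring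

/-- the real autocorrelation as Schwartz function -/
noncomputable def gR (k : 𝓢(ℝ, ℝ)) : 𝓢(ℝ, ℝ) := (gC k).postcompCLM (𝕜 := ℝ) Complex.reCLM

lemma gR_apply (k : 𝓢(ℝ, ℝ)) (x : ℝ) : gR k x = autocorr k x := by
  unfold gR
  rw [SchwartzMap.postcompCLM_apply, gC_apply]
  simp

/-- the reverse implication -/
theorem hyp_of_windows (k : 𝓢(ℝ, ℝ)) {l : Filter ℝ} [l.IsCountablyGenerated] (hl : l ≤ atTop)
    (hW : HW l) (hDg : HD l) : Hyp k l := by
  intro v δ hδ
  have h1 := schwartz_of_windows hl hW hDg ((gR k).compSubConstCLM ℝ v)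
  have h2 : ∀ T, ER T ((gR k).compSubConstCLM ℝ v) = SS k T v := by
    intro T
    unfold ER SS
    congr 2
    ext u
    rw [SchwartzMap.compSubConstCLM_apply, gR_apply]
  have h3 : (gR k).compSubConstCLM ℝ v 0 + ∫ u, pcDensity u * (gR k).compSubConstCLM ℝ v u =
      GG k v := by
    unfold GG
    rw [SchwartzMap.compSubConstCLM_apply, gR_apply, zero_sub, autocorr_neg]
    congr 1
    apply integral_congr_ae
    filter_upwards with u
    rw [SchwartzMap.compSubConstCLM_apply, gR_apply]
  rw [h3] at h1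
  simp only [h2] at h1
  filter_upwards [h1.eventually (gt_mem_nhds (show GG k v < GG k v + δ by linarith))] with T hT
  exact hT.le

/-- near-diagonal windows from the smooth hypothesis -/
theorem HD_of_hyp (k : 𝓢(ℝ, ℝ)) (hk : ∀ x, 0 ≤ k x) (hk0 : 0 < ∫ x, k x)
    (hF : ∀ ξ, 𝓕 (kC k) ξ ≠ 0)
    {l : Filter ℝ} [l.IsCountablyGenerated] (hl : l ≤ atTop) (hyp : Hyp k l) : HD l := by
  intro δ hδ
  refine ⟨δ / 16, by positivity, ?_⟩
  set b : ContDiffBump (0:ℝ) := ⟨δ / 16, δ / 8, by linarith, by linarith⟩ with hb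
  have hc := bump_conv k hk hk0 hF hl hyp b
  have hb1 : ∀ u ∈ Icc (-(δ / 16)) (δ / 16), b u = 1 := by
    intro u hu
    apply b.one_of_mem_closedBall
    rw [Metric.mem_closedBall, dist_zero_right, Real.norm_eq_abs, abs_le]
    exact hu
  have hb0 : b 0 = 1 := hb1 0 ⟨by linarith, by linarith⟩
  have hbz : ∀ u, u ∉ Icc (-(δ / 8)) (δ / 8) → b u = 0 := by
    intro u hu
    apply b.zero_of_le_dist
    change δ / 8 ≤ dist u 0
    rw [dist_zero_right, Real.norm_eq_abs]
    by_contra hcon
    rw [not_le, abs_lt] at hcon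
    exact hu ⟨hcon.1.le, hcon.2.le⟩
  have hI : ∫ u, pcDensity u * b u ≤ δ / 4 := by
    refine (bump_integral_le b (by linarith) hbz).trans ?_
    have := pc_integral_le_length (A := -(δ / 8)) (B := δ / 8) (by linarith)
    linarith
  rw [hb0, Metric.tendsto_nhds] at hc
  filter_upwards [hc (δ / 4) (by positivity), hl (eventually_gt_atTop 1)] with T h1 h2
  rw [Real.dist_eq, abs_lt] at h1
  have h3 := pairCount_div_le h2 (α := -(δ / 16)) (β := δ / 16) (f := b)
    (fun u hu => (hb1 u hu).ge) (fun u => b.nonneg)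
  rw [div_le_iff₀ (SN_pos h2)] at h3
  refine h3.trans (mul_le_mul_of_nonneg_right ?_ (SN_pos h2).le)
  linarith [h1.2]

end Pool.Agent.Helper69.PC
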