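import Pool.Agent.Helper69.PC.Close

open MeasureTheory Set Filter Topology FourierTransform
open scoped SchwartzMap Convolution ContDiff
open Pool.Agent.Helper57.PC Pool.Agent.Helper57.Zeta

namespace Pool.Agent.Helper69.PC

variable (k : 𝓢(ℝ, ℝ))

/-- real version for bump functions -/
lemma bump_conv (hk : ∀ x, 0 ≤ k x) (hk0 : 0 < ∫ x, k x) (hF : ∀ ξ, 𝓕 (kC k) ξ ≠ 0)
    {l : Filter ℝ} [l.IsCountablyGenerated] (hl : l ≤ atTop) (hyp : Hyp k l) {c : ℝ}
    (b : ContDiffBump c) :
    Tendsto (fun T => ER T b) l (𝓝 (b 0 + ∫ u, pcDensity u * b u)) := by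
  have hs : ContDiff ℝ ∞ fun x : ℝ => ((b x : ℝ) : ℂ) := Complex.ofRealCLM.contDiff.comp b.contDiff
  have hc : HasCompactSupport fun x : ℝ => ((b x : ℝ) : ℂ) :=
    b.hasCompactSupport.comp_left (g := fun x : ℝ => (x : ℂ)) (by simp)
  set f : 𝓢(ℝ, ℂ) := hc.toSchwartzMap hs with hf
  have h1 := schwartz_conv k hk hk0 hF hl hyp f
  have h2 : ∀ T, EC T f = ((ER T b : ℝ) : ℂ) := fun T => EC_ofReal T b
  have h3 : EL f = ((b 0 + ∫ u, pcDensity u * b u : ℝ) : ℂ) := by
    unfold EL
    push_cast
    rw [← integral_complex_ofReal]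
    congr 1
    apply integral_congr_ae
    filter_upwards with u
    push_cast
    rfl
  rw [h3] at h1
  simp only [h2] at h1
  have h4 := (Complex.continuous_re.tendsto _).comp h1
  exact h4

lemma pairCount_div_le {T : ℝ} (hT : 1 < T) {α β : ℝ} {f : ℝ → ℝ}
    (h1 : ∀ u ∈ Icc α β, 1 ≤ f u) (h0 : ∀ u, 0 ≤ f u) : pairCount T α β / SN T ≤ ER T f := by
  classical
  unfold ER PS
  apply div_le_div_of_nonneg_right _ (SN_pos hT).le
  rw [pairCount_eq, Finset.sum_product]
  apply Finset.sum_le_sum; intro i _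
  apply Finset.sum_le_sum; intro j _
  have hnd : nd T (i, j) = xp T i - xp T j := by unfold nd xp; ring
  have hm : 0 ≤ mr i * mr j := mul_nonneg (mr_nonneg _) (mr_nonneg _)
  split_ifs with h
  · rw [hnd] at h
    change mr i * mr j ≤ mr i * mr j * f (xp T i - xp T j)
    nlinarith [h1 _ h]
  · exact mul_nonneg hm (h0 _)

lemma le_pairCount_div {T : ℝ} (hT : 1 < T) {α β : ℝ} {f : ℝ → ℝ}
    (h1 : ∀ u, f u ≤ 1) (h0 : ∀ u, u ∉ Icc α β → f u ≤ 0) : ER T f ≤ pairCount T α β / SN T := by
  classical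
  unfold ER PS
  apply div_le_div_of_nonneg_right _ (SN_pos hT).le
  rw [pairCount_eq, Finset.sum_product]
  apply Finset.sum_le_sum; intro i _
  apply Finset.sum_le_sum; intro j _
  have hnd : nd T (i, j) = xp T i - xp T j := by unfold nd xp; ring
  have hm : 0 ≤ mr i * mr j := mul_nonneg (mr_nonneg _) (mr_nonneg _)
  split_ifs with h
  · change mr i * mr j * f (xp T i - xp T j) ≤ mr i * mr j
    nlinarith [h1 (xp T i - xp T j)]
  · rw [hnd] at h
    have := h0 _ h
    nlinarith

lemma integrable_bump_pc {c : ℝ} (b : ContDiffBump c) : Integrable fun u => pcDensity u * b u := by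
  have hb : Integrable fun u => b u := b.continuous.integrable_of_hasCompactSupport b.hasCompactSupport
  refine hb.bdd_mul (c := 1) ?_ ?_
  · have hm : Measurable pcDensity := by
      have : pcDensity = fun u => 1 - Pool.Agent.Helper57.PC.sq u := rfl
      rw [this]
      exact measurable_const.sub measurable_sq
    exact hm.aestronglyMeasurable
  · filter_upwards with u
    rw [Real.norm_of_nonneg (pcDensity_nonneg _)]
    exact pcDensity_le_one _

/-- integral against a bump is at most the integral over an interval containing its support -/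
lemma bump_integral_le {c : ℝ} (b : ContDiffBump c) {A B : ℝ} (hAB : A ≤ B)
    (hs : ∀ u, u ∉ Icc A B → b u = 0) : ∫ u, pcDensity u * b u ≤ ∫ u in A..B, pcDensity u := by
  have h1 : ∫ u, pcDensity u * b u = ∫ u in Icc A B, pcDensity u * b u := by
    rw [setIntegral_eq_integral_of_forall_compl_eq_zero]
    intro u hu
    rw [hs u hu, mul_zero]
  rw [h1, integral_Icc_eq_integral_Ioc, ← intervalIntegral.integral_of_le hAB]
  apply intervalIntegral.integral_mono_on hAB
  · exact (integrable_bump_pc b).intervalIntegrable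
  · exact intervalIntegrable_pcDensity _ _
  · intro u _
    exact mul_le_of_le_one_right (pcDensity_nonneg u) b.le_one

lemma le_bump_integral {c : ℝ} (b : ContDiffBump c) {A B : ℝ} (hAB : A ≤ B)
    (hs : ∀ u ∈ Icc A B, b u = 1) : ∫ u in A..B, pcDensity u ≤ ∫ u, pcDensity u * b u := by
  have h1 : ∫ u in A..B, pcDensity u = ∫ u in A..B, pcDensity u * b u := by
    apply intervalIntegral.integral_congr
    intro u hu
    rw [uIcc_of_le hAB] at hu
    simp only
    rw [hs u hu, mul_one]
  rw [h1, intervalIntegral.integral_of_le hAB]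
  exact setIntegral_le_integral (integrable_bump_pc b)
    (Eventually.of_forall fun u => mul_nonneg (pcDensity_nonneg u) b.nonneg)

lemma pc_integral_le_length {A B : ℝ} (hAB : A ≤ B) : ∫ u in A..B, pcDensity u ≤ B - A := by
  have h1 : ∫ u in A..B, pcDensity u ≤ ∫ _ in A..B, (1:ℝ) :=
    intervalIntegral.integral_mono_on hAB (intervalIntegrable_pcDensity _ _) intervalIntegrable_const
      fun u _ => pcDensity_le_one u
  simpa using h1

/-- Q1 along the filter -/
theorem window_conv (hk : ∀ x, 0 ≤ k x) (hk0 : 0 < ∫ x, k x) (hF : ∀ ξ, 𝓕 (kC k) ξ ≠ 0)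
    {l : Filter ℝ} [l.IsCountablyGenerated] (hl : l ≤ atTop) (hyp : Hyp k l) {α β : ℝ}
    (hα : 0 < α) (hαβ : α < β) :
    Tendsto (fun T => pairCount T α β / SN T) l (𝓝 (∫ u in α..β, pcDensity u)) := by
  rw [Metric.tendsto_nhds]
  intro ε hε
  set e : ℝ := min (min (ε / 4) (α / 2)) ((β - α) / 4) with he
  have he0 : 0 < e := by
    rw [he]
    apply lt_min (lt_min _ _) _ <;> linarith
  have he1 : e ≤ ε / 4 := (min_le_left _ _).trans (min_le_left _ _)
  have he2 : e ≤ α / 2 := (min_le_left _ _).trans (min_le_right _ _)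
  have he3 : e ≤ (β - α) / 4 := min_le_right _ _
  set bU : ContDiffBump ((α + β) / 2) := ⟨(β - α) / 2, (β - α) / 2 + e, by linarith, by linarith⟩ with hbU
  set bL : ContDiffBump ((α + β) / 2) := ⟨(β - α) / 2 - e, (β - α) / 2, by linarith, by linarith⟩ with hbL
  have hU1 : ∀ u ∈ Icc α β, bU u = 1 := by
    intro u hu
    apply bU.one_of_mem_closedBall
    rw [Metric.mem_closedBall, Real.dist_eq, abs_le]
    change -((β - α) / 2) ≤ _ ∧ _ ≤ (β - α) / 2
    constructor <;> linarith [hu.1, hu.2]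
  have hU0 : ∀ u, u ∉ Icc (α - e) (β + e) → bU u = 0 := by
    intro u hu
    apply bU.zero_of_le_dist
    change (β - α) / 2 + e ≤ dist u _
    rw [Real.dist_eq]
    by_contra hcon
    rw [not_le, abs_lt] at hcon
    apply hu
    constructor <;> linarith [hcon.1, hcon.2]
  have hL1 : ∀ u ∈ Icc (α + e) (β - e), bL u = 1 := by
    intro u hu
    apply bL.one_of_mem_closedBall
    rw [Metric.mem_closedBall, Real.dist_eq, abs_le]
    change -((β - α) / 2 - e) ≤ _ ∧ _ ≤ (β - α) / 2 - e
    constructor <;> linarith [hu.1, hu.2]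
  have hL0 : ∀ u, u ∉ Icc α β → bL u = 0 := by
    intro u hu
    apply bL.zero_of_le_dist
    change (β - α) / 2 ≤ dist u _
    rw [Real.dist_eq]
    by_contra hcon
    rw [not_le, abs_lt] at hcon
    apply hu
    constructor <;> linarith [hcon.1, hcon.2]
  have hcU := bump_conv k hk hk0 hF hl hyp bU
  have hcL := bump_conv k hk hk0 hF hl hyp bL
  have hU00 : bU 0 = 0 := hU0 0 (by rintro ⟨h, _⟩; linarith)
  have hL00 : bL 0 = 0 := hL0 0 (by rintro ⟨h, _⟩; linarith)
  rw [hU00, zero_add, Metric.tendsto_nhds] at hcU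
  rw [hL00, zero_add, Metric.tendsto_nhds] at hcL
  have hIU : ∫ u, pcDensity u * bU u ≤ (∫ u in α..β, pcDensity u) + 2 * e := by
    refine (bump_integral_le bU (by linarith) hU0).trans ?_
    rw [← intervalIntegral.integral_add_adjacent_intervals (b := α)
      (intervalIntegrable_pcDensity _ _) (intervalIntegrable_pcDensity _ _),
      ← intervalIntegral.integral_add_adjacent_intervals (a := α) (b := β) (c := β + e)
      (intervalIntegrable_pcDensity _ _) (intervalIntegrable_pcDensity _ _)]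
    have h1 := pc_integral_le_length (A := α - e) (B := α) (by linarith)
    have h2 := pc_integral_le_length (A := β) (B := β + e) (by linarith)
    linarith
  have hIL : (∫ u in α..β, pcDensity u) - 2 * e ≤ ∫ u, pcDensity u * bL u := by
    refine le_trans ?_ (le_bump_integral bL (by linarith) hL1)
    rw [← intervalIntegral.integral_add_adjacent_intervals (a := α) (b := α + e) (c := β)
      (intervalIntegrable_pcDensity _ _) (intervalIntegrable_pcDensity _ _),
      ← intervalIntegral.integral_add_adjacent_intervals (a := α + e) (b := β - e) (c := β)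
      (intervalIntegrable_pcDensity _ _) (intervalIntegrable_pcDensity _ _)]
    have h1 := pc_integral_le_length (A := α) (B := α + e) (by linarith)
    have h2 := pc_integral_le_length (A := β - e) (B := β) (by linarith)
    linarith
  filter_upwards [hcU e he0, hcL e he0, hl (eventually_gt_atTop 1)] with T h1 h2 h3
  rw [Real.dist_eq] at h1 h2 ⊢
  have h4 := pairCount_div_le h3 (α := α) (β := β) (f := bU) (fun u hu => (hU1 u hu).ge)
    (fun u => bU.nonneg)
  have h5 := le_pairCount_div h3 (α := α) (β := β) (f := bL) (fun u => bL.le_one)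
    (fun u hu => (hL0 u hu).le)
  rw [abs_lt] at h1 h2 ⊢
  constructor <;> linarith [h1.1, h1.2, h2.1, h2.2]

/-- near-diagonal pairs -/
theorem near_diag (hk : ∀ x, 0 ≤ k x) (hk0 : 0 < ∫ x, k x) (hF : ∀ ξ, 𝓕 (kC k) ξ ≠ 0)
    {l : Filter ℝ} [l.IsCountablyGenerated] (hl : l ≤ atTop) (hyp : Hyp k l) {δ : ℝ}
    (hδ : 0 < δ) :
    ∀ᶠ T in l, pairCount T 0 0 ≤ (1 + δ) * SN T := by
  set b : ContDiffBump (0:ℝ) := ⟨δ / 16, δ / 8, by linarith, by linarith⟩ with hb
  have hc := bump_conv k hk hk0 hF hl hyp b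
  have hb0 : b 0 = 1 := by
    apply b.one_of_mem_closedBall
    simp only [Metric.mem_closedBall, dist_self]
    exact b.rIn_pos.le
  have hbz : ∀ u, u ∉ Icc (-(δ / 8)) (δ / 8) → b u = 0 := by
    intro u hu
    apply b.zero_of_le_dist
    change δ / 8 ≤ dist u 0
    rw [dist_zero_right, Real.norm_eq_abs]
    by_contra hcon
    rw [not_le, abs_lt] at hcon
    exact hu ⟨hcon.1.le, hcon.2.le⟩
  have hI : ∫ u, pcDensity u * b u ≤ δ / 4 := by
    refine (bump_integral_le b (by linarith) hbz).trans ?_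
    have := pc_integral_le_length (A := -(δ / 8)) (B := δ / 8) (by linarith)
    linarith
  rw [hb0, Metric.tendsto_nhds] at hc
  filter_upwards [hc (δ / 4) (by positivity), hl (eventually_gt_atTop 1)] with T h1 h2
  rw [Real.dist_eq, abs_lt] at h1
  have h3 := pairCount_div_le h2 (α := 0) (β := 0) (f := b)
    (fun u hu => by
      have : u = 0 := le_antisymm hu.2 hu.1
      rw [this, hb0]) (fun u => b.nonneg)
  rw [div_le_iff₀ (SN_pos h2)] at h3
  refine h3.trans (mul_le_mul_of_nonneg_right ?_ (SN_pos h2).le)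
  linarith [h1.2]

open Classical in
/-- zeros that are multiple or off the critical line are rare -/
theorem bad_zeros (hk : ∀ x, 0 ≤ k x) (hk0 : 0 < ∫ x, k x) (hF : ∀ ξ, 𝓕 (kC k) ξ ≠ 0)
    {l : Filter ℝ} [l.IsCountablyGenerated] (hl : l ≤ atTop) (hyp : Hyp k l) {δ : ℝ}
    (hδ : 0 < δ) :
    ∀ᶠ T in l, ∑ ρ ∈ (Zf T).filter (fun ρ => mult ρ ≠ 1 ∨ ρ.re ≠ 1 / 2), (mult ρ : ℝ) ≤
      δ * SN T := by
  obtain ⟨T₀, hT₀⟩ := NT_lower (δ / 2) (by positivity)
  filter_upwards [near_diag k hk hk0 hF hl hyp (δ := δ / 2) (by positivity),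
    hl (eventually_ge_atTop T₀), hl (eventually_gt_atTop 1)] with T h1 h2 h3
  have hN := hT₀ T h2
  have hN' : (1 - δ / 2) * SN T ≤ NT T := hN
  -- the lower bound of the diagonal count
  have hp : ∀ ρ ∈ Zf T, (1 - starRingEnd ℂ ρ) ∈ Zf T := by
    intro ρ hρ
    rw [mem_Zf] at hρ ⊢
    refine ⟨?_, ?_⟩
    · rw [isNontrivialZero_iff, xi_one_sub, xi_conj, isNontrivialZero_iff.mp hρ.1, map_zero]
    · simpa using hρ.2
  have hm1 : ∀ ρ ∈ Zf T, (1:ℝ) ≤ mult ρ := by
    intro ρ hρ
    rw [mem_Zf] at hρ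
    have h4 : mult ρ ≠ 0 := by
      rw [mult_eq hρ.1]
      intro h5
      have h6 := isNontrivialZero_iff.mp hρ.1
      rw [analyticOrderNatAt] at h5
      have han : AnalyticAt ℂ xi ρ := (differentiable_xi.analyticAt ρ)
      rcases ENat.toNat_eq_zero.mp h5 with h7 | h7
      · exact (han.analyticOrderAt_ne_zero.mpr h6) h7
      · -- infinite order: xi vanishes identically
        have h8 := (analyticOrderAt_eq_top.mp h7)
        have h9 : AnalyticOnNhd ℂ xi univ := fun z _ => differentiable_xi.analyticAt z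
        have h10 := h9.eqOn_zero_of_preconnected_of_eventuallyEq_zero isPreconnected_univ
          (mem_univ ρ) h8
        exact xi_two_ne (h10 (mem_univ 2))
    exact_mod_cast Nat.one_le_iff_ne_zero.mpr h4
  have hdiag : ∑ ρ ∈ Zf T, ((mult ρ : ℝ) ^ 2 + if ρ.re ≠ 1 / 2 then (mult ρ : ℝ) else 0) ≤
      pairCount T 0 0 := by
    rw [pairCount_eq, Finset.sum_product]
    apply Finset.sum_le_sum
    intro ρ hρ
    have hz : ∀ j : ℂ, j.im = ρ.im → nd T (ρ, j) ∈ Icc (0:ℝ) 0 := by
      intro j hj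
      unfold nd
      simp [hj]
    have hnn : ∀ j ∈ Zf T, 0 ≤ (if nd T (ρ, j) ∈ Icc (0:ℝ) 0 then (mult (ρ, j).1 : ℝ) * (mult (ρ, j).2 : ℝ)
        else 0) := by
      intro j _
      split_ifs <;> positivity
    by_cases hre : ρ.re = 1 / 2
    · simp only [hre, ne_eq, not_true_eq_false, if_false, add_zero]
      have h5 := Finset.single_le_sum hnn hρ
      rw [if_pos (hz ρ rfl)] at h5
      rw [pow_two]
      exact h5
    · rw [if_pos hre]
      have hne : ρ ≠ 1 - starRingEnd ℂ ρ := by
        intro h5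
        have h6 := congrArg Complex.re h5
        simp at h6
        apply hre; linarith
      have hsub : ({ρ, 1 - starRingEnd ℂ ρ} : Finset ℂ) ⊆ Zf T := by
        intro z hz
        rw [Finset.mem_insert, Finset.mem_singleton] at hz
        rcases hz with rfl | rfl
        · exact hρ
        · exact hp ρ hρ
      have h5 := Finset.sum_le_sum_of_subset_of_nonneg hsub (fun j hj _ => hnn j hj)
      rw [Finset.sum_pair hne, if_pos (hz ρ rfl), if_pos (hz (1 - starRingEnd ℂ ρ) (by simp))] at h5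
      refine le_trans ?_ h5
      simp only
      have h6 : (mult ρ : ℝ) ≤ (mult ρ : ℝ) * (mult (1 - starRingEnd ℂ ρ) : ℝ) :=
        le_mul_of_one_le_right (Nat.cast_nonneg _) (hm1 _ (hp ρ hρ))
      rw [pow_two]
      linarith
  have hbad : ∑ ρ ∈ (Zf T).filter (fun ρ => mult ρ ≠ 1 ∨ ρ.re ≠ 1 / 2), (mult ρ : ℝ) ≤
      ∑ ρ ∈ Zf T, ((mult ρ : ℝ) ^ 2 + if ρ.re ≠ 1 / 2 then (mult ρ : ℝ) else 0) - NT T := by
    unfold NT
    rw [← Finset.sum_sub_distrib, Finset.sum_filter]
    apply Finset.sum_le_sum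
    intro ρ hρ
    have h5 := hm1 ρ hρ
    split_ifs with h6 h7 h7
    · nlinarith
    · have h8 : mult ρ ≠ 1 := by
        rcases h6 with h6 | h6
        · exact h6
        · exact absurd h6 h7
      have h9 : (2:ℝ) ≤ mult ρ := by
        have : 1 ≤ mult ρ := by exact_mod_cast h5
        have : 2 ≤ mult ρ := by omega
        exact_mod_cast this
      nlinarith
    · nlinarith
    · nlinarith
  have hS := SN_pos h3
  nlinarith

end Pool.Agent.Helper69.PC
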