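import Pool.Agent.Helper69.PC.ZetaIn

open MeasureTheory Set Filter Topology
open scoped SchwartzMap Convolution
open Pool.Agent.Helper57.PC hiding sq
open Pool.Agent.Helper57.PC renaming sq → sc
open Pool.Agent.Helper57.Zeta

namespace Pool.Agent.Helper69.PC

lemma sq_le_inv (u : ℝ) : sc u ≤ 2 * (1 + u ^ 2)⁻¹ := by
  rcases le_or_gt (u ^ 2) 1 with h | h
  · have h1 := sq_le_one u
    have h2 : 1 ≤ 2 * (1 + u ^ 2)⁻¹ := by
      rw [← div_eq_mul_inv, le_div_iff₀ (by positivity)]
      linarith
    linarith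
  · unfold Pool.Agent.Helper57.PC.sq
    have hu : u ≠ 0 := by rintro rfl; norm_num at h
    rw [div_pow, mul_pow, ← div_eq_mul_inv, div_le_div_iff₀ (by positivity) (by positivity)]
    have h1 : Real.sin (Real.pi * u) ^ 2 ≤ 1 := Real.sin_sq_le_one _
    have h2 : 1 < Real.pi ^ 2 := by nlinarith [Real.pi_gt_three]
    have h3 : Real.sin (Real.pi * u) ^ 2 * (1 + u ^ 2) ≤ 1 * (1 + u ^ 2) :=
      mul_le_mul_of_nonneg_right h1 (by positivity)
    nlinarith [mul_pos (sub_pos.mpr h2) (lt_trans one_pos h)]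

lemma integrable_sq : Integrable sc := by
  refine (integrable_inv_one_add_sq.const_mul 2).mono' measurable_sq.aestronglyMeasurable ?_
  filter_upwards with u
  rw [Real.norm_of_nonneg (sq_nonneg' u)]
  exact sq_le_inv u

lemma one_le_integral_sq : 1 ≤ ∫ u, sc u := by
  have hlim : Tendsto (fun M : ℝ => ∫ u in (-M)..M, sc u) atTop (𝓝 (∫ u, sc u)) :=
    intervalIntegral_tendsto_integral integrable_sq tendsto_neg_atTop_atBot tendsto_id
  apply le_of_forall_pos_lt_add
  intro δ hδ
  obtain ⟨b₀, _, hb⟩ := integral_sq_half (δ / 4) (by positivity)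
  have h2 : ∀ᶠ M : ℝ in atTop, 1 - δ / 2 ≤ ∫ u in (-M)..M, sc u := by
    filter_upwards [eventually_ge_atTop b₀] with M hM
    have h3 : ∫ u in (-M)..M, sc u = 2 * ∫ u in (0:ℝ)..M, sc u := by
      rw [← intervalIntegral.integral_add_adjacent_intervals (b := 0)
        (intervalIntegrable_sq _ _) (intervalIntegrable_sq _ _)]
      have h4 : ∫ u in (-M)..0, sc u = ∫ u in (0:ℝ)..M, sc u := by
        have := intervalIntegral.integral_comp_neg (a := 0) (b := M) (fun u => sc u)
        simp only [sq_even, neg_zero] at this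
        exact this.symm
      rw [h4]; ring
    have h5 := hb M hM
    rw [h3]; linarith
  have h3 := ge_of_tendsto hlim h2
  linarith

variable (k : 𝓢(ℝ, ℝ))

/-- convolution of the sinc-square with the autocorrelation -/
noncomputable def HH (v : ℝ) : ℝ := ∫ u, sc u * autocorr k (u - v)

lemma HH_eq : HH k = sc ⋆[ContinuousLinearMap.mul ℝ ℝ, volume] (autocorr k) := by
  ext v
  unfold HH convolution
  apply integral_congr_ae
  filter_upwards with u
  rw [ContinuousLinearMap.mul_apply', ← neg_sub v u, autocorr_neg]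

lemma continuous_HH : Continuous (HH k) := by
  rw [HH_eq]
  obtain ⟨C, _, hC⟩ := bounded_autocorr k
  refine BddAbove.continuous_convolution_right_of_integrable _ ?_ integrable_sq
    (continuous_autocorr k)
  refine ⟨C, ?_⟩
  rintro _ ⟨x, rfl⟩
  exact hC x

lemma integrable_HH : Integrable (HH k) := by
  rw [HH_eq]
  exact integrable_sq.integrable_convolution _ (integrable_autocorr k)

lemma integral_HH : (∫ x, k x) ^ 2 ≤ ∫ v, HH k v := by
  rw [HH_eq, integral_convolution _ integrable_sq (integrable_autocorr k)]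
  rw [ContinuousLinearMap.mul_apply', integral_autocorr]
  have := one_le_integral_sq
  nlinarith [sq_nonneg (∫ x, k x)]

lemma HH_nonneg (hk : ∀ x, 0 ≤ k x) (v : ℝ) : 0 ≤ HH k v :=
  integral_nonneg fun _ => mul_nonneg (sq_nonneg' _) (autocorr_nonneg k hk _)

/-- the predicted limit of the smoothed pair sums -/
noncomputable def GG (v : ℝ) : ℝ := autocorr k v + ∫ u, pcDensity u * autocorr k (u - v)

lemma integrable_sq_mul (v : ℝ) : Integrable fun u => sc u * autocorr k (u - v) := by
  refine ((integrable_autocorr k).comp_sub_right v).bdd_mul (c := 1)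
    measurable_sq.aestronglyMeasurable ?_
  filter_upwards with u
  exact norm_sq_le_one u

lemma GG_eq (v : ℝ) : GG k v = autocorr k v + (∫ x, k x) ^ 2 - HH k v := by
  unfold GG HH
  have h1 : (fun u => pcDensity u * autocorr k (u - v)) =
      fun u => autocorr k (u - v) - sc u * autocorr k (u - v) := by
    ext u; rw [pcDensity_eq]; ring
  rw [h1, integral_sub ((integrable_autocorr k).comp_sub_right v) (integrable_sq_mul k v),
    integral_sub_right_eq_self (fun u => autocorr k u) v, integral_autocorr]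
  ring

lemma continuous_GG : Continuous (GG k) := by
  have : GG k = fun v => autocorr k v + (∫ x, k x) ^ 2 - HH k v := funext (GG_eq k)
  rw [this]
  exact ((continuous_autocorr k).add continuous_const).sub (continuous_HH k)

lemma GG_nonneg (hk : ∀ x, 0 ≤ k x) (v : ℝ) : 0 ≤ GG k v :=
  add_nonneg (autocorr_nonneg k hk v)
    (integral_nonneg fun u => mul_nonneg (pcDensity_nonneg u) (autocorr_nonneg k hk _))

/-- hyperuniformity of the prediction -/
lemma DI_GG_le (hk : ∀ x, 0 ≤ k x) {ε : ℝ} (hε : 0 < ε) : ∃ B₀ : ℝ, ∀ B : ℝ, B₀ ≤ B →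
    DI B (GG k) ≤ B ^ 2 * (∫ x, k x) ^ 2 + ε * B := by
  set κ := (∫ x, k x) ^ 2 with hκ
  have hlim : Tendsto (fun M : ℝ => ∫ v in (-M)..M, HH k v) atTop (𝓝 (∫ v, HH k v)) :=
    intervalIntegral_tendsto_integral (integrable_HH k) tendsto_neg_atTop_atBot tendsto_id
  have hev : ∀ᶠ M : ℝ in atTop, κ - ε / 2 < ∫ v in (-M)..M, HH k v :=
    hlim.eventually (lt_mem_nhds (by have := integral_HH k; linarith))
  obtain ⟨R, hR1, hR0⟩ := (hev.and (eventually_ge_atTop 0)).exists
  have hκ0 : 0 ≤ κ := sq_nonneg _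
  refine ⟨max (2 * R) (max 1 (4 * R * κ / ε)), ?_⟩
  intro B hB
  have hB1 : 2 * R ≤ B := (le_max_left _ _).trans hB
  have hB2 : 1 ≤ B := ((le_max_left _ _).trans (le_max_right _ _)).trans hB
  have hB3 : 4 * R * κ / ε ≤ B := ((le_max_right _ _).trans (le_max_right _ _)).trans hB
  have hB0 : 0 ≤ B := by linarith
  have e1 : GG k = fun v => (autocorr k v + κ) - HH k v := funext (GG_eq k)
  have e2 : DI B (GG k) = DI B (autocorr k) + κ * B ^ 2 - DI B (HH k) := by
    have hc1 : Continuous fun v => autocorr k v + κ := (continuous_autocorr k).add continuous_const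
    have hc2 : Continuous fun _ : ℝ => κ := continuous_const
    rw [e1, DI_sub B hc1 (continuous_HH k), DI_add B (continuous_autocorr k) hc2, DI_const hB0]
  have h1 := DI_le_integral hB0 (continuous_autocorr k) (autocorr_nonneg k hk) (integrable_autocorr k)
  rw [integral_autocorr] at h1
  have h2 := DI_ge hR0 hB1 (continuous_HH k) (HH_nonneg k hk)
  have h3 : (B - 2 * R) * (κ - ε / 2) ≤ (B - 2 * R) * ∫ u in (-R)..R, HH k u :=
    mul_le_mul_of_nonneg_left hR1.le (by linarith)
  rw [e2]
  rw [div_le_iff₀ hε] at hB3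
  nlinarith [mul_nonneg hR0 hε.le]

end Pool.Agent.Helper69.PC
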