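import Pool.Agent.Helper69.PC.Lower
import Pool.Agent.Helper57.PC.UpperHalf

open MeasureTheory Set Filter Topology
open scoped SchwartzMap
open Pool.Agent.Helper57.PC Pool.Agent.Helper57.Zeta

namespace Pool.Agent.Helper69.PC

/-- normalised ordinate -/
noncomputable def xp (T : ℝ) (ρ : ℂ) : ℝ := ρ.im * Real.log T / (2 * Real.pi)

/-- the multiplicity as a real number -/
noncomputable def mr (ρ : ℂ) : ℝ := (mult ρ : ℝ)

lemma mr_nonneg (ρ : ℂ) : 0 ≤ mr ρ := Nat.cast_nonneg _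

lemma tendsto_SN : Tendsto SN atTop atTop := by
  unfold SN
  apply Tendsto.atTop_div_const (by positivity)
  exact tendsto_id.atTop_mul_atTop₀ Real.tendsto_log_atTop

lemma good_ge (M₁ M₂ ε : ℝ) (hε : 0 < ε) : ∀ᶠ T in atTop, (1 - ε) * SN T ≤
    ∑ ρ ∈ (Zf T).filter (fun ρ => M₁ ≤ xp T ρ ∧ xp T ρ ≤ SN T - M₂), mr ρ := by
  set e : ℝ := min (ε / 4) (1 / 2) with he
  have he0 : 0 < e := by rw [he]; positivity
  have he4 : e ≤ ε / 4 := min_le_left _ _
  have he2 : e ≤ 1 / 2 := min_le_right _ _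
  obtain ⟨T₀, hT₀⟩ := NT_lower e he0
  have hpi := Real.pi_pos
  filter_upwards [eventually_ge_atTop (T₀ + 1), eventually_ge_atTop 2, eventually_ge_atTop (1 / e),
    Real.tendsto_log_atTop.eventually_ge_atTop (2 * Real.pi * M₁),
    Real.tendsto_log_atTop.eventually_ge_atTop (2 * Real.pi * M₂),
    Real.tendsto_log_atTop.eventually_ge_atTop (Real.log 2 / e),
    tendsto_SN.eventually_ge_atTop (NT 1 / e)] with T h1 h2 h3 h4 h5 h6 h7
  have hT0 : 0 < T := by linarith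
  have hL0 : 0 < Real.log T := Real.log_pos (by linarith)
  have hS0 : 0 < SN T := SN_pos (by linarith)
  have hN := hT₀ (T - 1) (by linarith)
  -- N(T-1) ≤ good + N(1)
  have hsub : NT (T - 1) ≤
      ∑ ρ ∈ (Zf T).filter (fun ρ => M₁ ≤ xp T ρ ∧ xp T ρ ≤ SN T - M₂), mr ρ + NT 1 := by
    unfold NT
    set G := (Zf T).filter (fun ρ => M₁ ≤ xp T ρ ∧ xp T ρ ≤ SN T - M₂) with hG
    classical
    have hs : Zf (T - 1) ⊆ G ∪ Zf 1 := by
      intro ρ hρ
      rw [mem_Zf] at hρ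
      rw [Finset.mem_union]
      rcases le_or_gt ρ.im 1 with h | h
      · right
        rw [mem_Zf]
        exact ⟨hρ.1, hρ.2.1, h⟩
      · left
        rw [hG, Finset.mem_filter, mem_Zf]
        refine ⟨⟨hρ.1, hρ.2.1, by linarith [hρ.2.2]⟩, ?_, ?_⟩
        · unfold xp
          rw [le_div_iff₀ (by positivity)]
          nlinarith
        · unfold xp SN
          have h8 : ρ.im * Real.log T / (2 * Real.pi) ≤ (T - 1) * Real.log T / (2 * Real.pi) := by
            apply div_le_div_of_nonneg_right _ (by positivity)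
            exact mul_le_mul_of_nonneg_right hρ.2.2 hL0.le
          have h9 : M₂ ≤ Real.log T / (2 * Real.pi) := by
            rw [le_div_iff₀ (by positivity)]; linarith
          have h10 : (T - 1) * Real.log T / (2 * Real.pi) =
              T * Real.log T / (2 * Real.pi) - Real.log T / (2 * Real.pi) := by ring
          linarith
    calc ∑ ρ ∈ Zf (T - 1), (mult ρ : ℝ) ≤ ∑ ρ ∈ G ∪ Zf 1, (mult ρ : ℝ) :=
          Finset.sum_le_sum_of_subset_of_nonneg hs fun ρ _ _ => Nat.cast_nonneg _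
      _ ≤ ∑ ρ ∈ G, (mult ρ : ℝ) + ∑ ρ ∈ Zf 1, (mult ρ : ℝ) := by
          rw [← Finset.sum_union_inter]
          have : 0 ≤ ∑ ρ ∈ G ∩ Zf 1, (mult ρ : ℝ) := Finset.sum_nonneg fun ρ _ => Nat.cast_nonneg _
          linarith
  have h8 : (1 - e) * T ≤ T - 1 := by
    rw [div_le_iff₀ he0] at h3
    linarith
  have h9 : (1 - e) * Real.log T ≤ Real.log (T - 1) := by
    have h10 : Real.log T - Real.log 2 ≤ Real.log (T - 1) := by
      rw [← Real.log_div hT0.ne' (by norm_num)]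
      apply Real.log_le_log (by positivity)
      linarith
    rw [div_le_iff₀ he0] at h6
    linarith
  have h11 : ((1 - e) * T) * ((1 - e) * Real.log T) ≤ (T - 1) * Real.log (T - 1) :=
    mul_le_mul h8 h9 (mul_nonneg (by linarith) hL0.le) (by linarith)
  have h12 : (1 - e) ^ 2 * SN T ≤ (T - 1) * Real.log (T - 1) / (2 * Real.pi) := by
    unfold SN
    rw [le_div_iff₀ (by positivity)]
    calc (1 - e) ^ 2 * (T * Real.log T / (2 * Real.pi)) * (2 * Real.pi) =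
        ((1 - e) * T) * ((1 - e) * Real.log T) := by field_simp
      _ ≤ _ := h11
  have h13 : (1 - e) * ((1 - e) ^ 2 * SN T) ≤ NT (T - 1) :=
    (mul_le_mul_of_nonneg_left h12 (by linarith)).trans hN
  have h14 : NT 1 ≤ e * SN T := by
    rw [div_le_iff₀ he0] at h7; linarith
  have h15 : 1 - 3 * e ≤ (1 - e) ^ 3 := by nlinarith [mul_pos he0 he0]
  have h16 : (1 - 3 * e) * SN T ≤ (1 - e) ^ 3 * SN T := mul_le_mul_of_nonneg_right h15 hS0.le
  have h17 : (1 - ε) * SN T ≤ (1 - 4 * e) * SN T := mul_le_mul_of_nonneg_right (by linarith) hS0.le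
  have h18 : (1 - e) * ((1 - e) ^ 2 * SN T) = (1 - e) ^ 3 * SN T := by ring
  rw [h18] at h13
  have h19 : (1 - 4 * e) * SN T = (1 - 3 * e) * SN T - e * SN T := by ring
  linarith

/-- normalised smoothed pair sum for the zeta zeros -/
noncomputable def SS (k : 𝓢(ℝ, ℝ)) (T v : ℝ) : ℝ :=
  PS (Zf T) mr (xp T) (fun u => autocorr k (u - v)) / SN T

lemma continuous_SS (k : 𝓢(ℝ, ℝ)) (T : ℝ) : Continuous (SS k T) :=
  (continuous_PS k (Zf T) mr (xp T)).div_const _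

lemma SS_nonneg (k : 𝓢(ℝ, ℝ)) (hk : ∀ x, 0 ≤ k x) {T : ℝ} (hT : 1 < T) (v : ℝ) :
    0 ≤ SS k T v :=
  div_nonneg (PS_nonneg k _ _ _ hk mr_nonneg v) (SN_pos hT).le

lemma SS_le (k : 𝓢(ℝ, ℝ)) {T : ℝ} (hT : 1 < T) (v : ℝ) : SS k T v ≤ SS k T 0 := by
  unfold SS
  apply div_le_div_of_nonneg_right _ (SN_pos hT).le
  simp only [sub_zero]
  exact PS_shift_le k _ _ _ v

/-- the mesoscopic lower bound -/
lemma DI_SS_ge (k : 𝓢(ℝ, ℝ)) (hk : ∀ x, 0 ≤ k x) (hk0 : 0 < ∫ x, k x) {B ε : ℝ} (hB : 0 < B)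
    (hε : 0 < ε) :
    ∀ᶠ T in atTop, (1 - ε) * (B ^ 2 * (∫ x, k x) ^ 2) ≤ DI B (SS k T) := by
  set κ := ∫ x, k x with hκ
  set e : ℝ := min (ε / 4) (1 / 2) with he
  have he0 : 0 < e := by rw [he]; positivity
  have he4 : e ≤ ε / 4 := min_le_left _ _
  have he2 : e ≤ 1 / 2 := min_le_right _ _
  -- choose M
  have hlim : Tendsto (fun M : ℝ => ∫ u in (-M)..M, k u) atTop (𝓝 κ) :=
    intervalIntegral_tendsto_integral k.integrable tendsto_neg_atTop_atBot tendsto_id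
  have hev : ∀ᶠ M : ℝ in atTop, (1 - e) * κ < ∫ u in (-M)..M, k u :=
    hlim.eventually (lt_mem_nhds (by nlinarith))
  obtain ⟨M, hM1, hM0⟩ := (hev.and (eventually_ge_atTop 0)).exists
  filter_upwards [good_ge (M + B) M e he0, eventually_gt_atTop 1] with T h1 hT
  have hS0 : 0 < SN T := SN_pos hT
  have h2 := DI_PS_ge k (Zf T) mr (xp T) hk mr_nonneg hB.le hM0 hS0.le (c := B * κ) (by positivity)
  have h3 : DI B (SS k T) = DI B (fun v => PS (Zf T) mr (xp T) (fun u => autocorr k (u - v))) / SN T := by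
    unfold DI SS
    rw [integral_div]
  rw [h3, le_div_iff₀ hS0]
  refine le_trans ?_ h2
  set N' := ∑ ρ ∈ (Zf T).filter (fun ρ => M + B ≤ xp T ρ ∧ xp T ρ ≤ SN T - M), mr ρ with hN'
  set κ' := ∫ u in (-M)..M, k u with hκ'
  have h4 : (1 - e) * SN T * ((1 - e) * κ) ≤ N' * κ' := by
    apply mul_le_mul h1 hM1.le (mul_nonneg (by linarith) hk0.le)
    exact Finset.sum_nonneg fun ρ _ => mr_nonneg ρ
  have h5 : 2 * (B * κ) * (B * ((1 - e) * SN T * ((1 - e) * κ))) ≤ 2 * (B * κ) * (B * (N' * κ')) := by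
    apply mul_le_mul_of_nonneg_left _ (by positivity)
    exact mul_le_mul_of_nonneg_left h4 hB.le
  have h6 : (1 - ε) ≤ 2 * (1 - e) ^ 2 - 1 := by nlinarith
  have h7 : (1 - ε) * (B ^ 2 * κ ^ 2 * SN T) ≤ (2 * (1 - e) ^ 2 - 1) * (B ^ 2 * κ ^ 2 * SN T) :=
    mul_le_mul_of_nonneg_right h6 (by positivity)
  have h8 : (2 * (1 - e) ^ 2 - 1) * (B ^ 2 * κ ^ 2 * SN T) =
      2 * (B * κ) * (B * ((1 - e) * SN T * ((1 - e) * κ))) - (B * κ) ^ 2 * SN T := by ring
  calc (1 - ε) * (B ^ 2 * κ ^ 2) * SN T = (1 - ε) * (B ^ 2 * κ ^ 2 * SN T) := by ring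
    _ ≤ _ := h7
    _ ≤ _ := by rw [h8]; linarith

end Pool.Agent.Helper69.PC
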